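import Mathlib

set_option autoImplicit false

namespace Pool.Agent.Helper55.BE

open Finset

/-- Balanced assignment: every `x` chooses exactly `r x` slots, and all slots are chosen `b` or
`b + 1` times. -/
lemma balanced_aux {X : Type} [DecidableEq X] (q : ℕ) (r : X → ℕ) (hr : ∀ x, r x ≤ q)
    (S : Finset X) :
    ∃ (E : X → Finset (Fin q)) (b : ℕ), (∀ x ∈ S, (E x).card = r x) ∧
      ∀ s : Fin q, (S.filter (fun x => s ∈ E x)).card = b ∨
        (S.filter (fun x => s ∈ E x)).card = b + 1 := by
  classical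
  induction S using Finset.induction_on with
  | empty =>
    exact ⟨fun _ => ∅, 0, by simp, by simp⟩
  | insert a S ha ih =>
    obtain ⟨E, b, hE, hb⟩ := ih
    set low := univ.filter (fun s : Fin q => (S.filter (fun x => s ∈ E x)).card = b) with hlow
    have key : ∀ C : Finset (Fin q), ∀ s, ((insert a S).filter
        (fun x => s ∈ (Function.update E a C) x)).card =
        (S.filter (fun x => s ∈ E x)).card + (if s ∈ C then 1 else 0) := by
      intro C s
      rw [Finset.filter_insert]
      have h1 : S.filter (fun x => s ∈ (Function.update E a C) x) = S.filter (fun x => s ∈ E x) := by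
        apply Finset.filter_congr
        intro x hx
        have : x ≠ a := fun h => ha (h ▸ hx)
        rw [Function.update_of_ne this]
      rw [h1]
      simp only [Function.update_self]
      split_ifs with h2
      · rw [Finset.card_insert_of_notMem]
        intro h3
        exact ha (Finset.mem_filter.1 h3).1
      · rfl
    have hcardE : ∀ C : Finset (Fin q), C.card = r a → ∀ x ∈ insert a S,
        ((Function.update E a C) x).card = r x := by
      intro C hC x hx
      rcases Finset.mem_insert.1 hx with rfl | hx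
      · rw [Function.update_self]; exact hC
      · have : x ≠ a := fun h => ha (h ▸ hx)
        rw [Function.update_of_ne this]
        exact hE x hx
    rcases le_or_gt (r a) low.card with hle | hgt
    · obtain ⟨C, hC1, hC2⟩ := Finset.exists_subset_card_eq hle
      refine ⟨Function.update E a C, b, hcardE C hC2, fun s => ?_⟩
      rw [key]
      by_cases hs : s ∈ C
      · have h3 := hC1 hs
        rw [hlow, Finset.mem_filter] at h3
        rw [if_pos hs, h3.2]
        exact Or.inr rfl
      · rw [if_neg hs, add_zero]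
        exact hb s
    · obtain ⟨C, hC1, _, hC3⟩ := Finset.exists_subsuperset_card_eq (Finset.subset_univ low)
        hgt.le (by simpa using hr a)
      refine ⟨Function.update E a C, b + 1, hcardE C hC3, fun s => ?_⟩
      rw [key]
      by_cases hs : s ∈ C
      · rw [if_pos hs]
        rcases hb s with h | h <;> rw [h]
        · exact Or.inl rfl
        · exact Or.inr rfl
      · rw [if_neg hs, add_zero]
        left
        rcases hb s with h | h
        · exfalso
          apply hs
          apply hC1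
          rw [hlow, Finset.mem_filter]
          exact ⟨Finset.mem_univ _, h⟩
        · exact h

lemma balanced {X : Type} [Fintype X] (q : ℕ) (r : X → ℕ) (hr : ∀ x, r x ≤ q) (B : ℕ)
    (hB : q * B < ∑ x, r x) :
    ∃ (E : X → Finset (Fin q)) (b : ℕ), B ≤ b ∧ (∀ x, (E x).card = r x) ∧
      ∀ s : Fin q, {x | s ∈ E x}.ncard = b ∨ {x | s ∈ E x}.ncard = b + 1 := by
  classical
  obtain ⟨E, b, hE, hb⟩ := balanced_aux q r hr univ
  have hnc : ∀ s : Fin q, {x | s ∈ E x}.ncard = (univ.filter (fun x => s ∈ E x)).card := by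
    intro s
    rw [← Set.ncard_coe_finset]
    congr 1
    ext x; simp
  refine ⟨E, b, ?_, fun x => hE x (Finset.mem_univ x), fun s => by rw [hnc]; exact hb s⟩
  by_contra hcon
  push Not at hcon
  have h1 : ∑ x, r x = ∑ s : Fin q, (univ.filter (fun x => s ∈ E x)).card := by
    rw [Finset.sum_congr rfl (fun x hx => (hE x hx).symm)]
    simp_rw [Finset.card_filter]
    rw [Finset.sum_comm]
    apply Finset.sum_congr rfl
    intro x _
    rw [← Finset.card_filter]
    congr 1
    ext s; simp
  have h2 : ∑ s : Fin q, (univ.filter (fun x => s ∈ E x)).card ≤ ∑ s : Fin q, B := by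
    apply Finset.sum_le_sum
    intro s _
    rcases hb s with h | h <;> omega
  rw [Finset.sum_const, Finset.card_univ, Fintype.card_fin, smul_eq_mul] at h2
  omega

section assembly

variable {X Y : Type} [Fintype X] [Fintype Y]

/-- Vertex set. -/
abbrev VV (X Y : Type) (q q' : ℕ) : Type := (X ⊕ Y) ⊕ (Fin q ⊕ Fin q')

/-- adjacency -/
def adjR (GX : SimpleGraph X) (GY : SimpleGraph Y) (J : X → Y → Prop) {q q' : ℕ}
    (EX : X → Finset (Fin q')) (EY : Y → Finset (Fin q)) : VV X Y q q' → VV X Y q q' → Prop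
  | .inl (.inl x), .inl (.inl x') => GX.Adj x x'
  | .inl (.inl x), .inl (.inr y) => J x y
  | .inl (.inr y), .inl (.inl x) => J x y
  | .inl (.inr y), .inl (.inr y') => GY.Adj y y'
  | .inl (.inl x), .inr (.inr t) => t ∈ EX x
  | .inr (.inr t), .inl (.inl x) => t ∈ EX x
  | .inl (.inr y), .inr (.inl s) => s ∈ EY y
  | .inr (.inl s), .inl (.inr y) => s ∈ EY y
  | .inr (.inl s), .inr (.inr t) => (t : ℕ) ≤ (s : ℕ)
  | .inr (.inr t), .inr (.inl s) => (t : ℕ) ≤ (s : ℕ)
  | .inl (.inl _), .inr (.inl _) => False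
  | .inr (.inl _), .inl (.inl _) => False
  | .inl (.inr _), .inr (.inr _) => False
  | .inr (.inr _), .inl (.inr _) => False
  | .inr (.inl _), .inr (.inl _) => False
  | .inr (.inr _), .inr (.inr _) => False

/-- the graph -/
def GG (GX : SimpleGraph X) (GY : SimpleGraph Y) (J : X → Y → Prop) {q q' : ℕ}
    (EX : X → Finset (Fin q')) (EY : Y → Finset (Fin q)) : SimpleGraph (VV X Y q q') where
  Adj := adjR GX GY J EX EY
  symm := ⟨fun v w h => by
    rcases v with (x | y) | (s | t) <;> rcases w with (x' | y') | (s' | t') <;>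
      simp only [adjR] at h ⊢ <;> first | exact h | exact h.symm⟩
  loopless := ⟨fun v h => by
    rcases v with (x | y) | (s | t) <;> simp only [adjR] at h <;> exact (SimpleGraph.irrefl _ h)⟩

lemma ncard_four {q q' : ℕ} (p : VV X Y q q' → Prop) :
    {w | p w}.ncard = {x | p (.inl (.inl x))}.ncard + {y | p (.inl (.inr y))}.ncard +
      ({s | p (.inr (.inl s))}.ncard + {t | p (.inr (.inr t))}.ncard) := by
  classical
  have h : ∀ {α : Type} [Fintype α] (f : α → Prop), {a | f a}.ncard =
      ∑ a, if f a then 1 else 0 := by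
    intro α _ f
    rw [← Finset.card_filter, ← Set.ncard_coe_finset]
    congr 1
    ext a; simp
  rw [h, h, h, h, h, Fintype.sum_sum_type, Fintype.sum_sum_type, Fintype.sum_sum_type]

variable {q q' : ℕ} {GX : SimpleGraph X} {GY : SimpleGraph Y} {J : X → Y → Prop}
  {EX : X → Finset (Fin q')} {EY : Y → Finset (Fin q)}

omit [Fintype X] [Fintype Y] in
lemma no_K4
    (hX3 : ∀ a b c, GX.Adj a b → GX.Adj a c → GX.Adj b c → False)
    (hY3 : ∀ a b c, GY.Adj a b → GY.Adj a c → GY.Adj b c → False)
    (h4 : ∀ x x' y y', GX.Adj x x' → GY.Adj y y' → J x y → J x y' → J x' y → J x' y' → False)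
    (a b c d : VV X Y q q') (hab : adjR GX GY J EX EY a b) (hac : adjR GX GY J EX EY a c)
    (had : adjR GX GY J EX EY a d) (hbc : adjR GX GY J EX EY b c) (hbd : adjR GX GY J EX EY b d)
    (hcd : adjR GX GY J EX EY c d) : False := by
  rcases a with (a | a) | (a | a) <;> rcases b with (b | b) | (b | b) <;>
    simp only [adjR] at hab <;>
    rcases c with (c | c) | (c | c) <;> simp only [adjR] at hac hbc <;>
    rcases d with (d | d) | (d | d) <;> simp only [adjR] at had hbd hcd <;>
    first
    | exact hX3 _ _ _ hab hac hbc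
    | exact hX3 _ _ _ hab had hbd
    | exact hX3 _ _ _ hac had hcd
    | exact hX3 _ _ _ hbc hbd hcd
    | exact hY3 _ _ _ hab hac hbc
    | exact hY3 _ _ _ hab had hbd
    | exact hY3 _ _ _ hac had hcd
    | exact hY3 _ _ _ hbc hbd hcd
    | exact h4 _ _ _ _ hab hcd hac had hbc hbd
    | exact h4 _ _ _ _ hac hbd hab had hbc hcd
    | exact h4 _ _ _ _ had hbc hab hac hbd hcd
    | exact h4 _ _ _ _ hcd hab hac hbc had hbd
    | exact h4 _ _ _ _ hbd hac hab hbc had hcd
    | exact h4 _ _ _ _ hbc had hab hbd hac hcd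

lemma GG_cliqueFree (hX3 : GX.CliqueFree 3) (hY3 : GY.CliqueFree 3)
    (h4 : ∀ x x' y y', GX.Adj x x' → GY.Adj y y' → J x y → J x y' → J x' y → J x' y' → False) :
    (GG GX GY J EX EY).CliqueFree 4 := by
  classical
  by_contra hcon
  rw [SimpleGraph.not_cliqueFree_iff_top_isContained] at hcon
  obtain ⟨f⟩ := hcon
  have hf : ∀ i j : Fin 4, i ≠ j → (GG GX GY J EX EY).Adj (f i) (f j) := by
    intro i j hij
    exact f.toHom.map_adj hij
  refine no_K4 (GX := GX) (GY := GY) (J := J) (EX := EX) (EY := EY) ?_ ?_ h4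
    (f 0) (f 1) (f 2) (f 3)
    (hf 0 1 (by decide)) (hf 0 2 (by decide)) (hf 0 3 (by decide)) (hf 1 2 (by decide))
    (hf 1 3 (by decide)) (hf 2 3 (by decide))
  · intro a b c h1 h2 h3
    exact hX3 {a, b, c} (SimpleGraph.is3Clique_triple_iff.2 ⟨h1, h2, h3⟩)
  · intro a b c h1 h2 h3
    exact hY3 {a, b, c} (SimpleGraph.is3Clique_triple_iff.2 ⟨h1, h2, h3⟩)

lemma ncard_le_one {q : ℕ} (p : Fin q → Prop) (h : ∀ a b, p a → p b → (a : ℕ) = b) :
    {s | p s}.ncard ≤ 1 := by
  rw [Set.ncard_le_one_iff]
  intro a b ha hb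
  exact Fin.ext (h a b ha hb)

theorem assembly (GX : SimpleGraph X) (GY : SimpleGraph Y) (J : X → Y → Prop)
    (hX3 : GX.CliqueFree 3) (hY3 : GY.CliqueFree 3)
    (h4 : ∀ x x' y y', GX.Adj x x' → GY.Adj y y' → J x y → J x y' → J x' y → J x' y' → False)
    (q q' : ℕ) (hq : q ≤ q') (hq' : q' ≤ q + 1)
    (tX : X → ℕ) (tY : Y → ℕ) (B : ℕ)
    (hX1 : ∀ x, {x' | GX.Adj x x'}.ncard + {y | J x y}.ncard ≤ tX x)
    (hX2 : ∀ x, tX x ≤ {x' | GX.Adj x x'}.ncard + {y | J x y}.ncard + q')
    (hY1 : ∀ y, {x | J x y}.ncard + {y' | GY.Adj y y'}.ncard ≤ tY y)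
    (hY2 : ∀ y, tY y ≤ {x | J x y}.ncard + {y' | GY.Adj y y'}.ncard + q)
    (hXB : ∀ x, tX x < B) (hYB : ∀ y, tY y < B)
    (hAX : q' * B < ∑ x, (tX x - ({x' | GX.Adj x x'}.ncard + {y | J x y}.ncard)))
    (hAY : q * B < ∑ y, (tY y - ({x | J x y}.ncard + {y' | GY.Adj y y'}.ncard)))
    (hXm : ∀ d, {x | tX x = d}.ncard ≤ 2) (hYm : ∀ d, {y | tY y = d}.ncard ≤ 2)
    (d0 : ℕ) (hd0 : d0 < B) (hX0 : {x | tX x = d0}.ncard = 2) (hY0 : {y | tY y = d0}.ncard = 2)
    (hXp : ∀ x, 1 ≤ tX x) (hYp : ∀ y, 1 ≤ tY y)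
    (α β : ℕ) (hα : ∀ A : Finset X, (∀ x ∈ A, ∀ y ∈ A, ¬ GX.Adj x y) → A.card ≤ α)
    (hβ : ∀ A : Finset Y, (∀ x ∈ A, ∀ y ∈ A, ¬ GY.Adj x y) → A.card ≤ β) :
    ∃ G : SimpleGraph (VV X Y q q'), G.CliqueFree 4 ∧ (∀ v, 1 ≤ (G.neighborSet v).ncard) ∧
      (∀ d : ℕ, {v | (G.neighborSet v).ncard = d}.ncard ≤ 4) ∧
      (∃ d : ℕ, {v | (G.neighborSet v).ncard = d}.ncard = 4) ∧
      (∀ I : Finset (VV X Y q q'), (∀ v ∈ I, ∀ w ∈ I, ¬ G.Adj v w) →
        I.card ≤ α + β + (q + q')) := by
  classical
  obtain ⟨EX, bX, hbX, hEX, hEX'⟩ := balanced q'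
    (fun x => tX x - ({x' | GX.Adj x x'}.ncard + {y | J x y}.ncard))
    (fun x => by have := hX2 x; omega) B hAX
  obtain ⟨EY, bY, hbY, hEY, hEY'⟩ := balanced q
    (fun y => tY y - ({x | J x y}.ncard + {y' | GY.Adj y y'}.ncard))
    (fun y => by have := hY2 y; omega) B hAY
  set G := GG GX GY J EX EY with hG
  -- degrees
  have dX : ∀ x, (G.neighborSet (.inl (.inl x))).ncard = tX x := by
    intro x
    have h1 : (G.neighborSet (.inl (.inl x))).ncard =
        {x' | GX.Adj x x'}.ncard + {y | J x y}.ncard +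
        ({s : Fin q | False}.ncard + {t | t ∈ EX x}.ncard) :=
      ncard_four (fun w => adjR GX GY J EX EY (.inl (.inl x)) w)
    have h2 : {t | t ∈ EX x}.ncard = (EX x).card := Set.ncard_coe_finset (EX x)
    have h3 : {s : Fin q | False}.ncard = 0 := by simp
    rw [h1, h2, h3, hEX]
    have := hX1 x
    omega
  have dY : ∀ y, (G.neighborSet (.inl (.inr y))).ncard = tY y := by
    intro y
    have h1 : (G.neighborSet (.inl (.inr y))).ncard =
        {x | J x y}.ncard + {y' | GY.Adj y y'}.ncard +
        ({s | s ∈ EY y}.ncard + {t : Fin q' | False}.ncard) :=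
      ncard_four (fun w => adjR GX GY J EX EY (.inl (.inr y)) w)
    have h2 : {s | s ∈ EY y}.ncard = (EY y).card := Set.ncard_coe_finset (EY y)
    have h3 : {t : Fin q' | False}.ncard = 0 := by simp
    rw [h1, h2, h3, hEY]
    have := hY1 y
    omega
  have dS : ∀ s : Fin q, (G.neighborSet (.inr (.inl s))).ncard =
      {y | s ∈ EY y}.ncard + ((s : ℕ) + 1) := by
    intro s
    have h1 : (G.neighborSet (.inr (.inl s))).ncard =
        {x : X | False}.ncard + {y | s ∈ EY y}.ncard +
        ({s : Fin q | False}.ncard + {t : Fin q' | (t : ℕ) ≤ s}.ncard) :=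
      ncard_four (fun w => adjR GX GY J EX EY (.inr (.inl s)) w)
    have h3 : {s : Fin q | False}.ncard = 0 := by simp
    have h4 : {x : X | False}.ncard = 0 := by simp
    have h5 : {t : Fin q' | (t : ℕ) ≤ s}.ncard = (s : ℕ) + 1 := by
      have hs : (s : ℕ) < q' := lt_of_lt_of_le s.2 hq
      have h6 : {t : Fin q' | (t : ℕ) ≤ s} = ((Finset.Iic (⟨s, hs⟩ : Fin q') : Finset (Fin q')) :
          Set (Fin q')) := by
        ext t
        simp [Fin.le_def]
      rw [h6, Set.ncard_coe_finset, Fin.card_Iic]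
    rw [h1, h3, h4, h5]
    ring
  have dT : ∀ t : Fin q', (G.neighborSet (.inr (.inr t))).ncard =
      {x | t ∈ EX x}.ncard + (q - (t : ℕ)) := by
    intro t
    have h1 : (G.neighborSet (.inr (.inr t))).ncard =
        {x | t ∈ EX x}.ncard + {y : Y | False}.ncard +
        ({s : Fin q | (t : ℕ) ≤ s}.ncard + {t : Fin q' | False}.ncard) :=
      ncard_four (fun w => adjR GX GY J EX EY (.inr (.inr t)) w)
    have h3 : {s : Fin q' | False}.ncard = 0 := by simp
    have h4 : {x : Y | False}.ncard = 0 := by simp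
    have h5 : {s : Fin q | (t : ℕ) ≤ s}.ncard = q - (t : ℕ) := by
      rcases lt_or_ge (t : ℕ) q with hs | hs
      · have h6 : {s : Fin q | (t : ℕ) ≤ s} =
            ((Finset.Ici (⟨t, hs⟩ : Fin q) : Finset (Fin q)) : Set (Fin q)) := by
          ext s
          simp [Fin.le_def]
        rw [h6, Set.ncard_coe_finset, Fin.card_Ici]
      · have h6 : {s : Fin q | (t : ℕ) ≤ s} = ∅ := by
          ext s
          have := s.2
          simp only [Set.mem_ofPred_eq, Set.mem_empty_iff_false, iff_false]
          omega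
        rw [h6, Set.ncard_empty]
        omega
    rw [h1, h3, h4, h5]
    ring
  -- multiplicities
  have mult : ∀ d, {v | (G.neighborSet v).ncard = d}.ncard =
      {x | tX x = d}.ncard + {y | tY y = d}.ncard +
      ({s : Fin q | {y | s ∈ EY y}.ncard + ((s : ℕ) + 1) = d}.ncard +
        {t : Fin q' | {x | t ∈ EX x}.ncard + (q - (t : ℕ)) = d}.ncard) := by
    intro d
    rw [ncard_four (fun v => (G.neighborSet v).ncard = d)]
    simp only [dX, dY, dS, dT]
  have small : ∀ d, d < B → {v | (G.neighborSet v).ncard = d}.ncard =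
      {x | tX x = d}.ncard + {y | tY y = d}.ncard := by
    intro d hd
    rw [mult]
    have h1 : {s : Fin q | {y | s ∈ EY y}.ncard + ((s : ℕ) + 1) = d} = ∅ := by
      ext s
      simp only [Set.mem_ofPred_eq, Set.mem_empty_iff_false, iff_false]
      rcases hEY' s with h | h <;> rw [h] <;> omega
    have h2 : {t : Fin q' | {x | t ∈ EX x}.ncard + (q - (t : ℕ)) = d} = ∅ := by
      ext s
      simp only [Set.mem_ofPred_eq, Set.mem_empty_iff_false, iff_false]
      rcases hEX' s with h | h <;> rw [h] <;> omega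
    rw [h1, h2, Set.ncard_empty, Set.ncard_empty, add_zero, add_zero]
  refine ⟨G, GG_cliqueFree hX3 hY3 h4, ?_, ?_, ⟨d0, ?_⟩, ?_⟩
  · -- min degree
    rintro ((x | y) | (s | t))
    · rw [dX]; exact hXp x
    · rw [dY]; exact hYp y
    · rw [dS]; omega
    · rw [dT]
      have h1 : 0 < B := by omega
      rcases hEX' t with h | h <;> omega
  · -- multiplicity at most four
    intro d
    rcases lt_or_ge d B with hd | hd
    · rw [small d hd]
      have h1 := hXm d
      have h2 := hYm d
      omega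
    · rw [mult]
      have h1 : {x | tX x = d} = ∅ := by
        ext x
        have := hXB x
        simp only [Set.mem_ofPred_eq, Set.mem_empty_iff_false, iff_false]
        omega
      have h2 : {y | tY y = d} = ∅ := by
        ext y
        have := hYB y
        simp only [Set.mem_ofPred_eq, Set.mem_empty_iff_false, iff_false]
        omega
      have h3 : {s : Fin q | {y | s ∈ EY y}.ncard + ((s : ℕ) + 1) = d}.ncard ≤ 2 := by
        have h5 : {s : Fin q | {y | s ∈ EY y}.ncard + ((s : ℕ) + 1) = d} ⊆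
            {s : Fin q | bY + ((s : ℕ) + 1) = d} ∪ {s : Fin q | bY + 1 + ((s : ℕ) + 1) = d} := by
          intro s hs
          simp only [Set.mem_ofPred_eq, Set.mem_union] at hs ⊢
          rcases hEY' s with h | h <;> rw [h] at hs
          · exact Or.inl hs
          · exact Or.inr hs
        refine (Set.ncard_le_ncard h5 (Set.toFinite _)).trans ((Set.ncard_union_le _ _).trans ?_)
        have h6 := ncard_le_one (fun s : Fin q => bY + ((s : ℕ) + 1) = d)
          (fun a b ha hb => by omega)
        have h7 := ncard_le_one (fun s : Fin q => bY + 1 + ((s : ℕ) + 1) = d)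
          (fun a b ha hb => by omega)
        omega
      have h4 : {t : Fin q' | {x | t ∈ EX x}.ncard + (q - (t : ℕ)) = d}.ncard ≤ 2 := by
        have h5 : {t : Fin q' | {x | t ∈ EX x}.ncard + (q - (t : ℕ)) = d} ⊆
            {t : Fin q' | bX + (q - (t : ℕ)) = d} ∪ {t : Fin q' | bX + 1 + (q - (t : ℕ)) = d} := by
          intro s hs
          simp only [Set.mem_ofPred_eq, Set.mem_union] at hs ⊢
          rcases hEX' s with h | h <;> rw [h] at hs
          · exact Or.inl hs
          · exact Or.inr hs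
        refine (Set.ncard_le_ncard h5 (Set.toFinite _)).trans ((Set.ncard_union_le _ _).trans ?_)
        have h6 := ncard_le_one (fun t : Fin q' => bX + (q - (t : ℕ)) = d)
          (fun a b ha hb => by have := a.2; have := b.2; omega)
        have h7 := ncard_le_one (fun t : Fin q' => bX + 1 + (q - (t : ℕ)) = d)
          (fun a b ha hb => by have := a.2; have := b.2; omega)
        omega
      rw [h1, h2, Set.ncard_empty, Set.ncard_empty]
      omega
  · rw [small d0 hd0, hX0, hY0]
  · -- independent sets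
    intro I hI
    have h1 : I.card = {w | w ∈ I}.ncard := (Set.ncard_coe_finset I).symm
    rw [h1, ncard_four (fun w => w ∈ I)]
    have h2 : {x | (Sum.inl (Sum.inl x) : VV X Y q q') ∈ I}.ncard ≤ α := by
      have h3 : {x | (Sum.inl (Sum.inl x) : VV X Y q q') ∈ I} =
          ((univ.filter (fun x => (Sum.inl (Sum.inl x) : VV X Y q q') ∈ I) : Finset X) : Set X) := by
        ext x; simp
      rw [h3, Set.ncard_coe_finset]
      apply hα
      intro x hx y hy hxy
      exact hI _ (Finset.mem_filter.1 hx).2 _ (Finset.mem_filter.1 hy).2 hxy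
    have h2' : {y | (Sum.inl (Sum.inr y) : VV X Y q q') ∈ I}.ncard ≤ β := by
      have h3 : {y | (Sum.inl (Sum.inr y) : VV X Y q q') ∈ I} =
          ((univ.filter (fun y => (Sum.inl (Sum.inr y) : VV X Y q q') ∈ I) : Finset Y) : Set Y) := by
        ext x; simp
      rw [h3, Set.ncard_coe_finset]
      apply hβ
      intro x hx y hy hxy
      exact hI _ (Finset.mem_filter.1 hx).2 _ (Finset.mem_filter.1 hy).2 hxy
    have h5 : {s | (Sum.inr (Sum.inl s) : VV X Y q q') ∈ I}.ncard ≤ q := by
      refine (Set.ncard_le_card _).trans ?_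
      simp
    have h6 : {s | (Sum.inr (Sum.inr s) : VV X Y q q') ∈ I}.ncard ≤ q' := by
      refine (Set.ncard_le_card _).trans ?_
      simp
    omega

end assembly

end Pool.Agent.Helper55.BE
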