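import Mathlib

set_option autoImplicit false

namespace Pool.Agent.Helper55.BE

open Finset

lemma sum_cons (N : ℕ) (g : (Fin (N + 1) → Bool) → ℝ) :
    ∑ x, g x = ∑ x : Fin N → Bool, g (Fin.cons false x) + ∑ x : Fin N → Bool, g (Fin.cons true x) := by
  rw [← (Fin.consEquiv (fun _ => Bool)).sum_comp g, Fintype.sum_prod_type, Fintype.sum_bool,
    add_comm]
  rfl

lemma dist_cons (N : ℕ) (b : Bool) (x y : Fin N → Bool) :
    hammingDist (Fin.cons b x : Fin (N + 1) → Bool) (Fin.cons b y) = hammingDist x y := by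
  unfold hammingDist
  rw [Finset.card_filter, Finset.card_filter, Fin.sum_univ_succ]
  simp

lemma dist_cons' (N : ℕ) (x : Fin N → Bool) :
    hammingDist (Fin.cons false x : Fin (N + 1) → Bool) (Fin.cons true x) = 1 := by
  unfold hammingDist
  rw [Finset.card_filter, Fin.sum_univ_succ]
  simp

/-- The variance bound for `1`-Lipschitz functions on the cube. -/
lemma variance_bound (N : ℕ) : ∀ (f : (Fin N → Bool) → ℝ),
    (∀ x y, |f x - f y| ≤ hammingDist x y) →
    4 * (2 ^ N * ∑ x, f x ^ 2 - (∑ x, f x) ^ 2) ≤ N * 4 ^ N := by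
  induction N with
  | zero =>
    intro f _
    simp
  | succ N ih =>
    intro f hf
    set f0 : (Fin N → Bool) → ℝ := fun x => f (Fin.cons false x) with hf0
    set f1 : (Fin N → Bool) → ℝ := fun x => f (Fin.cons true x) with hf1
    have h0 := ih f0 (fun x y => by
      have := hf (Fin.cons false x) (Fin.cons false y)
      rwa [dist_cons] at this)
    have h1 := ih f1 (fun x y => by
      have := hf (Fin.cons true x) (Fin.cons true y)
      rwa [dist_cons] at this)
    have e1 : ∑ x, f x ^ 2 = ∑ x, f0 x ^ 2 + ∑ x, f1 x ^ 2 := sum_cons N (fun x => f x ^ 2)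
    have e2 : ∑ x, f x = ∑ x, f0 x + ∑ x, f1 x := sum_cons N f
    have hd : |∑ x, f0 x - ∑ x, f1 x| ≤ 2 ^ N := by
      rw [← Finset.sum_sub_distrib]
      calc |∑ x, (f0 x - f1 x)| ≤ ∑ x, |f0 x - f1 x| := Finset.abs_sum_le_sum_abs _ _
        _ ≤ ∑ x : Fin N → Bool, (1 : ℝ) := by
          apply Finset.sum_le_sum
          intro x _
          have := hf (Fin.cons false x) (Fin.cons true x)
          rw [dist_cons'] at this
          simpa using this
        _ = 2 ^ N := by simp
    have hd2 : (∑ x, f0 x - ∑ x, f1 x) ^ 2 ≤ 4 ^ N := by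
      rw [← sq_abs]
      calc |∑ x, f0 x - ∑ x, f1 x| ^ 2 ≤ (2 ^ N) ^ 2 := by gcongr
        _ = 4 ^ N := by rw [← pow_mul, mul_comm, pow_mul]; norm_num
    rw [e1, e2, pow_succ (2 : ℝ), pow_succ (4 : ℝ)]
    push_cast
    generalize ∑ x, f0 x = a at *
    generalize ∑ x, f1 x = b at *
    generalize ∑ x, f0 x ^ 2 = c at *
    generalize ∑ x, f1 x ^ 2 = d at *
    linarith [h0, h1, hd2, sq_nonneg (a + b)]

/-- The number of coordinates in which two points of the cube agree. -/
def agree {N : ℕ} (x y : Fin N → Bool) : ℕ := (univ.filter (fun i => x i = y i)).card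

lemma dist_not {N : ℕ} (x y : Fin N → Bool) : hammingDist (fun i => !(x i)) y = agree x y := by
  unfold hammingDist agree
  congr 1
  ext i
  simp only [mem_filter, mem_univ, true_and, ne_eq]
  cases x i <;> cases y i <;> simp

/-- A set of points of the cube any two of which agree in at least `k` coordinates is small. -/
lemma small_of_agree (N k : ℕ) (A : Finset (Fin N → Bool))
    (h : ∀ x ∈ A, ∀ y ∈ A, k ≤ agree x y) : (k : ℝ) ^ 2 * A.card ≤ N * 2 ^ N := by
  rcases A.eq_empty_or_nonempty with rfl | hA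
  · simp
  set f : (Fin N → Bool) → ℝ := fun x => ((A.inf' hA (fun a => hammingDist x a) : ℕ) : ℝ) with hf
  have hex : ∀ x, ∃ a ∈ A, f x = hammingDist x a := fun x => by
    obtain ⟨a, ha, he⟩ := Finset.exists_mem_eq_inf' hA (fun a => hammingDist x a)
    exact ⟨a, ha, by simp only [hf]; exact_mod_cast he⟩
  have hle : ∀ x, ∀ a ∈ A, f x ≤ hammingDist x a := fun x a ha => by
    simp only [hf]
    exact_mod_cast Finset.inf'_le (fun a => hammingDist x a) ha
  have hlip : ∀ x y, f x - f y ≤ hammingDist x y := fun x y => by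
    obtain ⟨a, ha, he⟩ := hex y
    have h1 := hle x a ha
    have h2 : (hammingDist x a : ℝ) ≤ hammingDist x y + hammingDist y a := by
      exact_mod_cast hammingDist_triangle x y a
    linarith
  have hlip' : ∀ x y, |f x - f y| ≤ hammingDist x y := fun x y => by
    rw [abs_le]
    constructor
    · have := hlip y x
      rw [hammingDist_comm] at this
      linarith
    · exact hlip x y
  have hvar := variance_bound N f hlip'
  set μ : ℝ := (∑ x, f x) / 2 ^ N with hμ
  have h2N : (0 : ℝ) < 2 ^ N := by positivity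
  have hcard : ∑ x : Fin N → Bool, (1 : ℝ) = 2 ^ N := by simp
  have hsq : ∑ x, (f x - μ) ^ 2 ≤ N * 2 ^ N / 4 := by
    have e1 : ∑ x, (f x - μ) ^ 2 = ∑ x, f x ^ 2 - (∑ x, f x) ^ 2 / 2 ^ N := by
      have : ∀ x, (f x - μ) ^ 2 = f x ^ 2 - 2 * μ * f x + μ ^ 2 * 1 := fun x => by ring
      simp_rw [this]
      rw [Finset.sum_add_distrib, Finset.sum_sub_distrib, ← Finset.mul_sum, ← Finset.mul_sum,
        hcard, hμ]
      field_simp
      ring
    rw [e1]
    have e2 : (4 : ℝ) ^ N = 2 ^ N * 2 ^ N := by rw [← mul_pow]; norm_num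
    rw [e2] at hvar
    rw [← sub_nonneg]
    have e3 : (N : ℝ) * 2 ^ N / 4 - (∑ x, f x ^ 2 - (∑ x, f x) ^ 2 / 2 ^ N) =
      (N * (2 ^ N * 2 ^ N) - 4 * (2 ^ N * ∑ x, f x ^ 2 - (∑ x, f x) ^ 2)) / (4 * 2 ^ N) := by
      field_simp
    rw [e3]
    apply div_nonneg <;> linarith
  -- lower bound
  have hA0 : ∀ a ∈ A, f a = 0 := fun a ha => by
    have h1 := hle a a ha
    rw [hammingDist_self] at h1
    have h2 : 0 ≤ f a := by simp only [hf]; positivity
    push_cast at h1
    linarith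
  have hA1 : ∀ a ∈ A, (k : ℝ) ≤ f (fun i => !(a i)) := fun a ha => by
    obtain ⟨b, hb, he⟩ := hex (fun i => !(a i))
    rw [he, dist_not]
    exact_mod_cast h a ha b hb
  have hs1 : ∑ a ∈ A, (f a - μ) ^ 2 ≤ ∑ x, (f x - μ) ^ 2 :=
    Finset.sum_le_univ_sum_of_nonneg (fun x => sq_nonneg _)
  have hs2 : ∑ a ∈ A, (f (fun i => !(a i)) - μ) ^ 2 ≤ ∑ x, (f x - μ) ^ 2 := by
    have hinj : Function.Injective (fun (a : Fin N → Bool) => (fun i => !(a i))) := by
      intro a b hab
      funext i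
      have := congrFun hab i
      simpa using this
    calc ∑ a ∈ A, (f (fun i => !(a i)) - μ) ^ 2
        = ∑ x ∈ A.map ⟨_, hinj⟩, (f x - μ) ^ 2 := by rw [Finset.sum_map]; rfl
      _ ≤ ∑ x, (f x - μ) ^ 2 := Finset.sum_le_univ_sum_of_nonneg (fun x => sq_nonneg _)
  have hs3 : ∑ a ∈ A, (k : ℝ) ^ 2 / 2 ≤
      ∑ a ∈ A, ((f a - μ) ^ 2 + (f (fun i => !(a i)) - μ) ^ 2) := by
    apply Finset.sum_le_sum
    intro a ha
    rw [hA0 a ha]
    have h1 := hA1 a ha
    have h2 : (0 : ℝ) ≤ k := by positivity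
    nlinarith [sq_nonneg (f (fun i => !(a i)) - 2 * μ), sq_nonneg (f (fun i => !(a i)) - k)]
  rw [Finset.sum_add_distrib, Finset.sum_const, nsmul_eq_mul] at hs3
  linarith

end Pool.Agent.Helper55.BE
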