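import Mathlib

set_option autoImplicit false

namespace Pool.Agent.Helper55.BE

open Finset

/-- the sign of a Boolean -/
def sg (b : Bool) : ℤ := if b then 1 else -1

lemma sg_mul_beq (a b : Bool) : sg (a == b) = sg a * sg b := by
  cases a <;> cases b <;> rfl

section mgf

variable {I : Type} [Fintype I] [DecidableEq I]

/-- Exponential moment of a signed sum over `E`. -/
lemma mgf (E : Finset I) (τ : I → Bool) (t : ℝ) :
    ∑ m : I → Bool, Real.exp (t * ((∑ e ∈ E, sg (τ e) * sg (m e) : ℤ) : ℝ)) ≤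
      2 ^ Fintype.card I * Real.exp (t ^ 2 * E.card / 2) := by
  set g : I → Bool → ℝ := fun e b =>
    if e ∈ E then Real.exp (t * ((sg (τ e) * sg b : ℤ) : ℝ)) else 1 with hg
  have h1 : ∀ m : I → Bool, Real.exp (t * ((∑ e ∈ E, sg (τ e) * sg (m e) : ℤ) : ℝ)) =
      ∏ e, g e (m e) := fun m => by
    rw [Int.cast_sum, Finset.mul_sum, Real.exp_sum]
    simp only [hg]
    rw [Finset.prod_ite_mem]
    simp
  simp_rw [h1]
  have h2 : ∑ m : I → Bool, ∏ e, g e (m e) = ∏ e, ∑ b, g e b := by
    rw [Finset.prod_univ_sum, Fintype.piFinset_univ]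
  rw [h2]
  have h3 : ∀ e ∈ (univ : Finset I), ∑ b, g e b ≤ 2 * (if e ∈ E then Real.exp (t ^ 2 / 2) else 1) := by
    intro e _
    rw [Fintype.sum_bool]
    simp only [hg]
    by_cases he : e ∈ E
    · simp only [he, if_true]
      have h4 := Real.cosh_le_exp_half_sq t
      rw [Real.cosh_eq] at h4
      have h5 : ((sg (τ e) * sg true : ℤ) : ℝ) = 1 ∧ ((sg (τ e) * sg false : ℤ) : ℝ) = -1 ∨
          ((sg (τ e) * sg true : ℤ) : ℝ) = -1 ∧ ((sg (τ e) * sg false : ℤ) : ℝ) = 1 := by
        cases τ e <;> simp [sg]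
      rcases h5 with ⟨h6, h7⟩ | ⟨h6, h7⟩ <;> rw [h6, h7, mul_one, mul_neg, mul_one] <;> linarith
    · simp only [he, if_false]
      norm_num
  have h4 : ∀ e ∈ (univ : Finset I), 0 ≤ ∑ b, g e b := by
    intro e _
    apply Finset.sum_nonneg
    intro b _
    simp only [hg]
    split_ifs
    · positivity
    · norm_num
  calc ∏ e, ∑ b, g e b ≤ ∏ e, (2 * (if e ∈ E then Real.exp (t ^ 2 / 2) else 1)) :=
        Finset.prod_le_prod h4 h3
    _ = 2 ^ Fintype.card I * Real.exp (t ^ 2 * E.card / 2) := by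
      rw [Finset.prod_mul_distrib, Finset.prod_const, Finset.card_univ, Finset.prod_ite_mem]
      simp only [univ_inter, Finset.prod_const]
      rw [← Real.exp_nat_mul]
      congr 2
      ring

/-- Chernoff bound. -/
lemma chernoff (E : Finset I) (τ : I → Bool) (t : ℝ) (ht : 0 ≤ t) (s : ℤ) :
    ((univ.filter (fun m : I → Bool => s < ∑ e ∈ E, sg (τ e) * sg (m e))).card : ℝ) ≤
      2 ^ Fintype.card I * Real.exp (t ^ 2 * E.card / 2 - t * s) := by
  have h1 := mgf E τ t
  have h2 : ((univ.filter (fun m : I → Bool => s < ∑ e ∈ E, sg (τ e) * sg (m e))).card : ℝ) *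
      Real.exp (t * s) ≤
      ∑ m : I → Bool, Real.exp (t * ((∑ e ∈ E, sg (τ e) * sg (m e) : ℤ) : ℝ)) := by
    calc ((univ.filter (fun m : I → Bool => s < ∑ e ∈ E, sg (τ e) * sg (m e))).card : ℝ) *
      Real.exp (t * s) = ∑ m ∈ univ.filter (fun m : I → Bool => s < ∑ e ∈ E, sg (τ e) * sg (m e)),
        Real.exp (t * s) := by rw [Finset.sum_const, nsmul_eq_mul]
      _ ≤ ∑ m ∈ univ.filter (fun m : I → Bool => s < ∑ e ∈ E, sg (τ e) * sg (m e)),
          Real.exp (t * ((∑ e ∈ E, sg (τ e) * sg (m e) : ℤ) : ℝ)) := by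
        apply Finset.sum_le_sum
        intro m hm
        rw [Finset.mem_filter] at hm
        apply Real.exp_le_exp.2
        apply mul_le_mul_of_nonneg_left _ ht
        exact_mod_cast hm.2.le
      _ ≤ _ := by
        apply Finset.sum_le_sum_of_subset_of_nonneg (Finset.filter_subset _ _)
        intro m _ _
        positivity
  rw [Real.exp_sub, mul_div_assoc']
  rw [le_div_iff₀ (Real.exp_pos _)]
  linarith

end mgf

section central

lemma central_sq (m : ℕ) : (2 * m + 1) * (Nat.centralBinom m) ^ 2 ≤ 4 ^ (2 * m) := by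
  induction m with
  | zero => simp
  | succ m ih =>
    have h := Nat.succ_mul_centralBinom_succ m
    have h2 : (m + 1) ^ 2 * ((2 * (m + 1) + 1) * (Nat.centralBinom (m + 1)) ^ 2) ≤
        (m + 1) ^ 2 * 4 ^ (2 * (m + 1)) := by
      calc (m + 1) ^ 2 * ((2 * (m + 1) + 1) * (Nat.centralBinom (m + 1)) ^ 2)
          = (2 * m + 3) * ((m + 1) * Nat.centralBinom (m + 1)) ^ 2 := by ring
        _ = (2 * m + 3) * (2 * (2 * m + 1) * Nat.centralBinom m) ^ 2 := by rw [h]
        _ = 4 * (2 * m + 3) * (2 * m + 1) * ((2 * m + 1) * (Nat.centralBinom m) ^ 2) := by ring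
        _ ≤ 4 * (2 * m + 3) * (2 * m + 1) * 4 ^ (2 * m) := by gcongr
        _ = (4 * ((2 * m + 3) * (2 * m + 1))) * 4 ^ (2 * m) := by ring
        _ ≤ (4 * (4 * (m + 1) ^ 2)) * 4 ^ (2 * m) := by
          apply Nat.mul_le_mul_right
          apply Nat.mul_le_mul_left
          nlinarith
        _ = (m + 1) ^ 2 * 4 ^ (2 * (m + 1)) := by ring
    exact Nat.le_of_mul_le_mul_left h2 (by positivity)

variable {I : Type} [Fintype I] [DecidableEq I]

lemma count_trues (t : ℕ) :
    (univ.filter (fun m : I → Bool => (univ.filter (fun e => m e = true)).card = t)).card =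
      (Fintype.card I).choose t := by
  rw [← Finset.card_univ (α := I), ← Finset.card_powersetCard]
  apply Finset.card_bij (fun m _ => univ.filter (fun e => m e = true))
  · intro m hm
    rw [Finset.mem_filter] at hm
    rw [Finset.mem_powersetCard]
    exact ⟨Finset.subset_univ _, hm.2⟩
  · intro m _ m' _ h
    funext e
    have : e ∈ univ.filter (fun e => m e = true) ↔ e ∈ univ.filter (fun e => m' e = true) := by
      rw [h]
    simp only [mem_filter, mem_univ, true_and] at this
    exact Bool.eq_iff_iff.2 this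
  · intro S hS
    rw [Finset.mem_powersetCard] at hS
    refine ⟨fun e => decide (e ∈ S), ?_, ?_⟩
    · rw [Finset.mem_filter]
      simp [hS.2]
    · simp

lemma sum_sg (m : I → Bool) :
    ∑ e, sg (m e) = 2 * ((univ.filter (fun e => m e = true)).card : ℤ) - Fintype.card I := by
  have h1 : ∀ e, sg (m e) = 2 * (if m e = true then 1 else 0) - 1 := fun e => by
    cases m e <;> rfl
  simp_rw [h1]
  rw [Finset.sum_sub_distrib, ← Finset.mul_sum]
  simp

/-- Anticoncentration of a sum of `2 n` signs. -/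
lemma anti (n s : ℕ) (hI : Fintype.card I = 2 * n) :
    ((univ.filter (fun m : I → Bool => |∑ e, sg (m e)| ≤ s)).card) ≤
      (s + 1) * Nat.centralBinom n := by
  have h1 : univ.filter (fun m : I → Bool => |∑ e, sg (m e)| ≤ s) ⊆
      (Finset.Icc (n - s / 2) (n + s / 2)).biUnion
        (fun t => univ.filter (fun m : I → Bool => (univ.filter (fun e => m e = true)).card = t)) := by
    intro m hm
    rw [Finset.mem_filter, sum_sg, hI] at hm
    rw [Finset.mem_biUnion]
    refine ⟨(univ.filter (fun e => m e = true)).card, ?_, by simp⟩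
    rw [Finset.mem_Icc]
    have h2 := abs_le.1 hm.2
    push_cast at h2
    omega
  calc (univ.filter (fun m : I → Bool => |∑ e, sg (m e)| ≤ s)).card
      ≤ ((Finset.Icc (n - s / 2) (n + s / 2)).biUnion (fun t => univ.filter
        (fun m : I → Bool => (univ.filter (fun e => m e = true)).card = t))).card :=
        Finset.card_le_card h1
    _ ≤ ∑ t ∈ Finset.Icc (n - s / 2) (n + s / 2), (univ.filter
        (fun m : I → Bool => (univ.filter (fun e => m e = true)).card = t)).card :=
        Finset.card_biUnion_le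
    _ ≤ ∑ t ∈ Finset.Icc (n - s / 2) (n + s / 2), Nat.centralBinom n := by
      apply Finset.sum_le_sum
      intro t _
      rw [count_trues, hI]
      exact Nat.choose_le_centralBinom t n
    _ ≤ (s + 1) * Nat.centralBinom n := by
      rw [Finset.sum_const, smul_eq_mul]
      gcongr
      rw [Nat.card_Icc]
      omega

end central

end Pool.Agent.Helper55.BE
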