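import Mathlib
import Pool.Agent.Helper55.Rand

set_option autoImplicit false

namespace Pool.Agent.Helper55.BE

open Finset

/-- The support of a vector of signs and zeros. -/
def supp {N : ℕ} (u : Fin N → Option Bool) : Finset (Fin N) :=
  univ.filter (fun i => (u i).isSome = true)

lemma count_supp (N k : ℕ) (hN : 1 ≤ N) :
    ((univ.filter (fun u : Fin N → Option Bool => (supp u).card ≤ k)).card : ℝ) ≤
      3 * (2 * N) ^ k := by
  have hNr : (1 : ℝ) ≤ N := by exact_mod_cast hN
  set z : ℝ := 1 / (2 * N) with hz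
  have hz0 : 0 < z := by rw [hz]; positivity
  have hz1 : z ≤ 1 := by
    rw [hz, div_le_one (by positivity)]
    linarith
  set w : Option Bool → ℝ := fun o => if o.isSome = true then z else 1 with hw
  have h1 : ∑ u : Fin N → Option Bool, ∏ i, w (u i) = ∏ i : Fin N, ∑ o, w o := by
    rw [Finset.prod_univ_sum, Fintype.piFinset_univ]
  have h2 : ∑ o, w o = 1 + 1 / N := by
    rw [Fintype.sum_option, Fintype.sum_bool]
    simp only [hw, Option.isSome_none, Option.isSome_some, if_true, hz, Bool.false_eq_true,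
      if_false]
    field_simp
    ring
  have h3 : ∏ i : Fin N, ∑ o, w o ≤ 3 := by
    rw [h2, Finset.prod_const, Finset.card_univ, Fintype.card_fin]
    calc (1 + 1 / (N : ℝ)) ^ N ≤ (Real.exp (1 / N)) ^ N := by
          gcongr
          have := Real.add_one_le_exp (1 / (N : ℝ))
          linarith
      _ = Real.exp 1 := by
        rw [← Real.exp_nat_mul]
        congr 1
        field_simp
      _ ≤ 3 := by
        have := Real.exp_one_lt_d9
        linarith
  have h4 : ∀ u : Fin N → Option Bool, ∏ i, w (u i) = z ^ (supp u).card := by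
    intro u
    simp only [hw]
    rw [Finset.prod_ite]
    simp [supp]
  have h5 : ((univ.filter (fun u : Fin N → Option Bool => (supp u).card ≤ k)).card : ℝ) * z ^ k ≤
      ∑ u : Fin N → Option Bool, ∏ i, w (u i) := by
    calc ((univ.filter (fun u : Fin N → Option Bool => (supp u).card ≤ k)).card : ℝ) * z ^ k
        = ∑ u ∈ univ.filter (fun u : Fin N → Option Bool => (supp u).card ≤ k), z ^ k := by
          rw [Finset.sum_const, nsmul_eq_mul]
      _ ≤ ∑ u ∈ univ.filter (fun u : Fin N → Option Bool => (supp u).card ≤ k), ∏ i, w (u i) := by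
        apply Finset.sum_le_sum
        intro u hu
        rw [h4]
        exact pow_le_pow_of_le_one hz0.le hz1 (Finset.mem_filter.1 hu).2
      _ ≤ _ := by
        apply Finset.sum_le_sum_of_subset_of_nonneg (Finset.filter_subset _ _)
        intro u _ _
        rw [h4]
        positivity
  have h6 : z ^ k * (2 * N) ^ k = 1 := by
    rw [← mul_pow, hz]
    have : (1 : ℝ) / (2 * N) * (2 * N) = 1 := by field_simp
    rw [this, one_pow]
  have h7 : (0 : ℝ) < (2 * N) ^ k := by positivity
  calc ((univ.filter (fun u : Fin N → Option Bool => (supp u).card ≤ k)).card : ℝ)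
      = ((univ.filter (fun u : Fin N → Option Bool => (supp u).card ≤ k)).card : ℝ) *
        (z ^ k * (2 * N) ^ k) := by rw [h6, mul_one]
    _ = (((univ.filter (fun u : Fin N → Option Bool => (supp u).card ≤ k)).card : ℝ) * z ^ k) *
        (2 * N) ^ k := by ring
    _ ≤ 3 * (2 * N) ^ k := by
      gcongr
      linarith

/-- sign product of two partial sign vectors -/
def tau {N : ℕ} (u v : Fin N → Option Bool) : Fin N × Fin N → Bool :=
  fun p => ((u p.1).getD true == (v p.2).getD true)

/-- The bilinear sum over the supports. -/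
def psum {N : ℕ} (M : Fin N × Fin N → Bool) (u v : Fin N → Option Bool) : ℤ :=
  ∑ e ∈ supp u ×ˢ supp v, sg (tau u v e) * sg (M e)

lemma bad1 (N k : ℕ) (hN : 1 ≤ N) (s : ℤ) (t : ℝ) (ht : 0 ≤ t) :
    ((univ.filter (fun M : Fin N × Fin N → Bool => ∃ u v : Fin N → Option Bool,
      (supp u).card ≤ k ∧ (supp v).card ≤ k ∧ s < psum M u v)).card : ℝ) ≤
    (3 * (2 * N) ^ k) ^ 2 * (2 ^ (N * N) * Real.exp (t ^ 2 * k ^ 2 / 2 - t * s)) := by
  classical
  set T := univ.filter (fun u : Fin N → Option Bool => (supp u).card ≤ k) with hT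
  have h1 : univ.filter (fun M : Fin N × Fin N → Bool => ∃ u v : Fin N → Option Bool,
      (supp u).card ≤ k ∧ (supp v).card ≤ k ∧ s < psum M u v) ⊆
      (T ×ˢ T).biUnion (fun q => univ.filter (fun M : Fin N × Fin N → Bool =>
        s < psum M q.1 q.2)) := by
    intro M hM
    rw [Finset.mem_filter] at hM
    obtain ⟨_, u, v, hu, hv, huv⟩ := hM
    rw [Finset.mem_biUnion]
    refine ⟨(u, v), ?_, ?_⟩
    · rw [Finset.mem_product, hT]
      simp [hu, hv]
    · simp [huv]
  have h2 : ∀ q ∈ T ×ˢ T, ((univ.filter (fun M : Fin N × Fin N → Bool =>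
        s < psum M q.1 q.2)).card : ℝ) ≤
      2 ^ (N * N) * Real.exp (t ^ 2 * k ^ 2 / 2 - t * s) := by
    intro q hq
    rw [Finset.mem_product, hT, Finset.mem_filter, Finset.mem_filter] at hq
    have h3 := chernoff (supp q.1 ×ˢ supp q.2) (tau q.1 q.2) t ht s
    refine le_trans h3 ?_
    rw [Fintype.card_prod, Fintype.card_fin]
    gcongr
    rw [Finset.card_product]
    push_cast
    have h4 : ((supp q.1).card : ℝ) ≤ k := by exact_mod_cast hq.1.2
    have h5 : ((supp q.2).card : ℝ) ≤ k := by exact_mod_cast hq.2.2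
    nlinarith [Nat.cast_nonneg (α := ℝ) (supp q.1).card, Nat.cast_nonneg (α := ℝ) (supp q.2).card]
  calc ((univ.filter (fun M : Fin N × Fin N → Bool => ∃ u v : Fin N → Option Bool,
      (supp u).card ≤ k ∧ (supp v).card ≤ k ∧ s < psum M u v)).card : ℝ)
      ≤ ∑ q ∈ T ×ˢ T, ((univ.filter (fun M : Fin N × Fin N → Bool =>
        s < psum M q.1 q.2)).card : ℝ) := by
        exact_mod_cast (Finset.card_le_card h1).trans Finset.card_biUnion_le
    _ ≤ ∑ q ∈ T ×ˢ T, 2 ^ (N * N) * Real.exp (t ^ 2 * k ^ 2 / 2 - t * s) :=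
        Finset.sum_le_sum h2
    _ = (T.card : ℝ) ^ 2 * (2 ^ (N * N) * Real.exp (t ^ 2 * k ^ 2 / 2 - t * s)) := by
      rw [Finset.sum_const, nsmul_eq_mul, Finset.card_product]
      push_cast
      ring
    _ ≤ _ := by
      gcongr
      exact count_supp N k hN

/-- The bilinear form. -/
def bil {N : ℕ} (M : Fin N × Fin N → Bool) (x y : Fin N → Bool) : ℤ :=
  ∑ p : Fin N × Fin N, sg (x p.1) * sg (y p.2) * sg (M p)

lemma bil_eq {N : ℕ} (M : Fin N × Fin N → Bool) (x y : Fin N → Bool) :
    bil M x y = ∑ p, sg ((x p.1 == y p.2) == M p) := by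
  unfold bil
  apply Finset.sum_congr rfl
  intro p _
  rw [sg_mul_beq, sg_mul_beq]

lemma bad2_fixed (N n s : ℕ) (hn : N * N = 2 * n) (x y : Fin N → Bool) :
    (univ.filter (fun M : Fin N × Fin N → Bool => |bil M x y| ≤ s)).card ≤
      (s + 1) * Nat.centralBinom n := by
  refine le_trans ?_ (anti (I := Fin N × Fin N) n s (by simpa using hn))
  apply Finset.card_le_card_of_injOn (fun M p => ((x p.1 == y p.2) == M p))
  · intro M hM
    simp only [Finset.coe_filter, mem_univ, true_and, Set.mem_ofPred_eq] at hM ⊢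
    rw [bil_eq] at hM
    exact hM
  · intro M _ M' _ h
    funext p
    have := congrFun h p
    simp only at this
    revert this
    cases (x p.1 == y p.2) <;> cases M p <;> cases M' p <;> simp

lemma bad2_sum (N n s : ℕ) (hn : N * N = 2 * n) :
    N * ∑ M : Fin N × Fin N → Bool,
      (univ.filter (fun q : (Fin N → Bool) × (Fin N → Bool) => |bil M q.1 q.2| ≤ s)).card ≤
      4 ^ N * ((s + 1) * 2 ^ (N * N)) := by
  have h1 : ∑ M : Fin N × Fin N → Bool,
      (univ.filter (fun q : (Fin N → Bool) × (Fin N → Bool) => |bil M q.1 q.2| ≤ s)).card =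
      ∑ q : (Fin N → Bool) × (Fin N → Bool),
      (univ.filter (fun M : Fin N × Fin N → Bool => |bil M q.1 q.2| ≤ s)).card := by
    simp_rw [Finset.card_filter]
    rw [Finset.sum_comm]
  have h2 : ∑ q : (Fin N → Bool) × (Fin N → Bool),
      (univ.filter (fun M : Fin N × Fin N → Bool => |bil M q.1 q.2| ≤ s)).card ≤
      4 ^ N * ((s + 1) * Nat.centralBinom n) := by
    calc _ ≤ ∑ q : (Fin N → Bool) × (Fin N → Bool), (s + 1) * Nat.centralBinom n := by
          apply Finset.sum_le_sum
          intro q _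
          exact bad2_fixed N n s hn q.1 q.2
      _ = 4 ^ N * ((s + 1) * Nat.centralBinom n) := by
        rw [Finset.sum_const, smul_eq_mul, Finset.card_univ, Fintype.card_prod]
        simp only [Fintype.card_pi, Fintype.card_bool, Finset.prod_const, Finset.card_univ,
          Fintype.card_fin]
        rw [← mul_pow]
        norm_num
  have h3 : N * Nat.centralBinom n ≤ 2 ^ (N * N) := by
    have h4 := central_sq n
    have h5 : (N * Nat.centralBinom n) ^ 2 ≤ (2 ^ (N * N)) ^ 2 := by
      calc (N * Nat.centralBinom n) ^ 2 = (N * N) * (Nat.centralBinom n) ^ 2 := by ring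
        _ ≤ (2 * n + 1) * (Nat.centralBinom n) ^ 2 := by
          gcongr
          omega
        _ ≤ 4 ^ (2 * n) := h4
        _ = (2 ^ (N * N)) ^ 2 := by
          rw [hn, show (4 : ℕ) = 2 ^ 2 by norm_num, ← pow_mul, ← pow_mul]
          congr 1
          ring
    exact (Nat.pow_le_pow_iff_left (by norm_num)).1 h5
  rw [h1]
  calc _ ≤ N * (4 ^ N * ((s + 1) * Nat.centralBinom n)) := by gcongr
    _ = 4 ^ N * ((s + 1) * (N * Nat.centralBinom n)) := by ring
    _ ≤ _ := by gcongr

end Pool.Agent.Helper55.BE
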