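import Mathlib
import Pool.Agent.Helper55.Mat

set_option autoImplicit false

namespace Pool.Agent.Helper55.BE

open Finset

lemma numeric (L : ℕ) (hL : 40000 ≤ L) :
    (3 * (2 * ((L ^ 12 : ℕ) : ℝ)) ^ (L ^ 7)) ^ 2 * Real.exp (-((L : ℝ) ^ 8 / 2)) ≤ 1 / 4 := by
  have hLr : (40000 : ℝ) ≤ L := by exact_mod_cast hL
  have hL0 : (0 : ℝ) < L := by linarith
  have hlog : 1 + 12 * Real.log L ≤ L / 8 := by
    have h1 : Real.log L = 2 * Real.log (Real.sqrt L) := by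
      rw [Real.log_sqrt hL0.le]; ring
    have hs : 200 ≤ Real.sqrt L := by
      rw [Real.le_sqrt (by norm_num) hL0.le]
      linarith
    have h2 := Real.log_le_sub_one_of_pos (show 0 < Real.sqrt L by linarith)
    have h3 : Real.sqrt L * Real.sqrt L = L := Real.mul_self_sqrt hL0.le
    rw [h1]
    nlinarith
  have h2N : (0 : ℝ) < 2 * ((L ^ 12 : ℕ) : ℝ) := by positivity
  have e1 : (2 * ((L ^ 12 : ℕ) : ℝ)) ^ (L ^ 7) =
      Real.exp ((L : ℝ) ^ 7 * Real.log (2 * ((L ^ 12 : ℕ) : ℝ))) := by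
    have e3 : (L : ℝ) ^ 7 = ((L ^ 7 : ℕ) : ℝ) := by push_cast; rfl
    rw [e3, Real.exp_nat_mul, Real.exp_log h2N]
  have hl2 : Real.log (2 * ((L ^ 12 : ℕ) : ℝ)) ≤ L / 8 := by
    push_cast
    rw [Real.log_mul (by norm_num) (by positivity), Real.log_pow]
    have h4 : Real.log 2 ≤ 1 := by
      have := Real.log_two_lt_d9
      linarith
    push_cast
    linarith
  have e2 : (2 * ((L ^ 12 : ℕ) : ℝ)) ^ (L ^ 7) ≤ Real.exp ((L : ℝ) ^ 8 / 8) := by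
    rw [e1]
    apply Real.exp_le_exp.2
    calc (L : ℝ) ^ 7 * Real.log (2 * ((L ^ 12 : ℕ) : ℝ)) ≤ (L : ℝ) ^ 7 * (L / 8) := by gcongr
      _ = (L : ℝ) ^ 8 / 8 := by ring
  calc (3 * (2 * ((L ^ 12 : ℕ) : ℝ)) ^ (L ^ 7)) ^ 2 * Real.exp (-((L : ℝ) ^ 8 / 2))
      ≤ (3 * Real.exp ((L : ℝ) ^ 8 / 8)) ^ 2 * Real.exp (-((L : ℝ) ^ 8 / 2)) := by gcongr
    _ = 9 * Real.exp (-((L : ℝ) ^ 8 / 4)) := by
      rw [mul_pow, ← Real.exp_nat_mul, mul_assoc, ← Real.exp_add]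
      norm_num
      ring
    _ ≤ 1 / 4 := by
      have h5 : (36 : ℝ) ≤ Real.exp ((L : ℝ) ^ 8 / 4) := by
        have h6 := Real.add_one_le_exp ((L : ℝ) ^ 8 / 4)
        have h7 : (40000 : ℝ) ^ 8 ≤ (L : ℝ) ^ 8 := by gcongr
        have h8 : (36 : ℝ) ≤ (40000 : ℝ) ^ 8 / 4 := by norm_num
        linarith
      rw [Real.exp_neg]
      rw [mul_inv_le_iff₀ (Real.exp_pos _)]
      linarith

theorem exists_matrix (L : ℕ) (hL : 40000 ≤ L) (hev : Even L) :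
    ∃ M : Fin (L ^ 12) × Fin (L ^ 12) → Bool,
      (∀ u v : Fin (L ^ 12) → Option Bool, (supp u).card ≤ L ^ 7 → (supp v).card ≤ L ^ 7 →
        psum M u v ≤ ((L ^ 11 : ℕ) : ℤ)) ∧
      L * (univ.filter (fun q : (Fin (L ^ 12) → Bool) × (Fin (L ^ 12) → Bool) =>
        |bil M q.1 q.2| ≤ ((L ^ 11 : ℕ) : ℤ))).card ≤ 4 * 4 ^ (L ^ 12) := by
  classical
  set N := L ^ 12 with hN
  have hLpos : 0 < L := by omega
  have hLr : (0 : ℝ) < L := by exact_mod_cast hLpos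
  have hN1 : 1 ≤ N := Nat.one_le_pow _ _ hLpos
  -- the first kind of bad matrices
  set B1 := univ.filter (fun M : Fin N × Fin N → Bool => ∃ u v : Fin N → Option Bool,
      (supp u).card ≤ L ^ 7 ∧ (supp v).card ≤ L ^ 7 ∧ ((L ^ 11 : ℕ) : ℤ) < psum M u v) with hB1
  have h1 : (B1.card : ℝ) ≤ 2 ^ (N * N) / 4 := by
    have h2 := bad1 N (L ^ 7) hN1 ((L ^ 11 : ℕ) : ℤ) (1 / (L : ℝ) ^ 3) (by positivity)
    have h3 : (1 / (L : ℝ) ^ 3) ^ 2 * ((L ^ 7 : ℕ) : ℝ) ^ 2 / 2 -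
        1 / (L : ℝ) ^ 3 * (((L ^ 11 : ℕ) : ℤ) : ℝ) = -((L : ℝ) ^ 8 / 2) := by
      push_cast
      field_simp
      ring
    rw [h3] at h2
    have h4 := numeric L hL
    have h5 : (0 : ℝ) < 2 ^ (N * N) := by positivity
    calc (B1.card : ℝ) ≤ _ := h2
      _ = ((3 * (2 * ((L ^ 12 : ℕ) : ℝ)) ^ (L ^ 7)) ^ 2 * Real.exp (-((L : ℝ) ^ 8 / 2))) *
          2 ^ (N * N) := by rw [← hN]; ring
      _ ≤ 1 / 4 * 2 ^ (N * N) := by gcongr
      _ = _ := by ring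
  -- the second moment
  obtain ⟨l, hl⟩ := hev
  have hn : N * N = 2 * (2 ^ 11 * l ^ 12 * N) := by
    have : N = 2 * (2 ^ 11 * l ^ 12) := by rw [hN, hl]; ring
    calc N * N = (2 * (2 ^ 11 * l ^ 12)) * N := by rw [← this]
      _ = _ := by ring
  have h2 := bad2_sum N _ (L ^ 11) hn
  set b2 : (Fin N × Fin N → Bool) → ℕ := fun M =>
    (univ.filter (fun q : (Fin N → Bool) × (Fin N → Bool) =>
      |bil M q.1 q.2| ≤ ((L ^ 11 : ℕ) : ℤ))).card with hb2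
  have h3 : L * ∑ M, b2 M ≤ 2 * 4 ^ N * 2 ^ (N * N) := by
    have h4 : L ^ 11 * (L * ∑ M, b2 M) ≤ L ^ 11 * (2 * 4 ^ N * 2 ^ (N * N)) := by
      have hN' : L ^ 11 * L = N := by rw [hN]; ring
      calc L ^ 11 * (L * ∑ M, b2 M) = L ^ 11 * L * ∑ M, b2 M := by rw [mul_assoc]
        _ = N * ∑ M, b2 M := by rw [hN']
        _ ≤ 4 ^ N * ((L ^ 11 + 1) * 2 ^ (N * N)) := h2
        _ ≤ 4 ^ N * ((L ^ 11 + L ^ 11) * 2 ^ (N * N)) := by
          gcongr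
          exact Nat.one_le_pow _ _ hLpos
        _ = _ := by ring
    exact Nat.le_of_mul_le_mul_left h4 (by positivity)
  by_contra hcon
  push Not at hcon
  have h4 : ∀ M ∈ univ \ B1, 4 * 4 ^ N ≤ L * b2 M := by
    intro M hM
    rw [Finset.mem_sdiff, hB1, Finset.mem_filter] at hM
    have h5 := hM.2
    push Not at h5
    exact (hcon M (fun u v hu hv => h5 (Finset.mem_univ _) u v hu hv)).le
  have h5 : (univ \ B1).card * (4 * 4 ^ N) ≤ L * ∑ M, b2 M := by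
    rw [Finset.mul_sum]
    calc (univ \ B1).card * (4 * 4 ^ N) = ∑ M ∈ univ \ B1, 4 * 4 ^ N := by
          rw [Finset.sum_const, smul_eq_mul]
      _ ≤ ∑ M ∈ univ \ B1, L * b2 M := Finset.sum_le_sum h4
      _ ≤ _ := Finset.sum_le_sum_of_subset (Finset.subset_univ _)
  have h6 : (univ \ B1).card + B1.card = 2 ^ (N * N) := by
    rw [Finset.card_sdiff_add_card_eq_card (Finset.subset_univ _), Finset.card_univ]
    simp
  have h7 : ((univ \ B1).card : ℝ) + B1.card = 2 ^ (N * N) := by exact_mod_cast h6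
  have h8 : ((univ \ B1).card : ℝ) * (4 * 4 ^ N) ≤ 2 * 4 ^ N * 2 ^ (N * N) := by
    exact_mod_cast h5.trans h3
  have h9 : (0 : ℝ) < 4 ^ N := by positivity
  have h10 : (0 : ℝ) < 2 ^ (N * N) := by positivity
  have h11 : (4 : ℝ) ^ N * (4 * ((univ \ B1).card : ℝ)) ≤ 4 ^ N * (2 * 2 ^ (N * N)) := by linarith
  have h12 := le_of_mul_le_mul_left h11 h9
  linarith

end Pool.Agent.Helper55.BE
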