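import Mathlib
import Pool.Agent.Helper55.Cube
import Pool.Agent.Helper55.Mat2

set_option autoImplicit false

namespace Pool.Agent.Helper55.BE

open Finset

section

variable {N : ℕ}

/-- The cube. -/
abbrev Cube (N : ℕ) : Type := Fin N → Bool

/-- antipode -/
def neg (x : Cube N) : Cube N := fun i => !(x i)

lemma neg_neg (x : Cube N) : neg (neg x) = x := by
  funext i; simp [neg]

lemma sg_not (b : Bool) : sg (!b) = -sg b := by cases b <;> rfl

lemma bil_neg_right (M : Fin N × Fin N → Bool) (x y : Cube N) : bil M x (neg y) = -bil M x y := by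
  unfold bil neg
  rw [← Finset.sum_neg_distrib]
  apply Finset.sum_congr rfl
  intro p _
  rw [sg_not]; ring

lemma bil_neg_left (M : Fin N × Fin N → Bool) (x y : Cube N) : bil M (neg x) y = -bil M x y := by
  unfold bil neg
  rw [← Finset.sum_neg_distrib]
  apply Finset.sum_congr rfl
  intro p _
  rw [sg_not]; ring

lemma row_count (β : Cube N → ℤ) (hβ : ∀ y, β (neg y) = -β y) (s : ℤ) (hs : 0 ≤ s) :
    2 * (univ.filter (fun y => s < β y)).card + (univ.filter (fun y => |β y| ≤ s)).card = 2 ^ N := by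
  classical
  have h1 : (univ.filter (fun y => β y < -s)).card = (univ.filter (fun y => s < β y)).card := by
    apply Finset.card_bij' (fun y _ => neg y) (fun y _ => neg y)
    · intro y hy
      rw [Finset.mem_filter] at hy ⊢
      refine ⟨Finset.mem_univ _, ?_⟩
      rw [hβ]; linarith [hy.2]
    · intro y hy
      rw [Finset.mem_filter] at hy ⊢
      refine ⟨Finset.mem_univ _, ?_⟩
      rw [hβ]; linarith [hy.2]
    · intro y _; exact neg_neg y
    · intro y _; exact neg_neg y
  have h2 : (univ : Finset (Cube N)).card = 2 ^ N := by simp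
  have h3 : (univ : Finset (Cube N)) = (univ.filter (fun y => s < β y)) ∪
      ((univ.filter (fun y => β y < -s)) ∪ (univ.filter (fun y => |β y| ≤ s))) := by
    ext y
    simp only [mem_univ, mem_union, mem_filter, true_and, true_iff]
    rcases lt_or_ge s (β y) with h | h
    · exact Or.inl h
    · rcases lt_or_ge (β y) (-s) with h' | h'
      · exact Or.inr (Or.inl h')
      · exact Or.inr (Or.inr (abs_le.2 ⟨h', h⟩))
  have h4 : Disjoint (univ.filter (fun y => β y < -s)) (univ.filter (fun y => |β y| ≤ s)) := by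
    rw [Finset.disjoint_filter]
    intro y _ h5 h6
    have := (abs_le.1 h6).1
    linarith
  have h5 : Disjoint (univ.filter (fun y => s < β y))
      ((univ.filter (fun y => β y < -s)) ∪ (univ.filter (fun y => |β y| ≤ s))) := by
    rw [Finset.disjoint_union_right]
    constructor
    · rw [Finset.disjoint_filter]
      intro y _ h5 h6
      linarith
    · rw [Finset.disjoint_filter]
      intro y _ h5 h6
      have := (abs_le.1 h6).2
      linarith
  have h6 := congrArg Finset.card h3
  rw [Finset.card_union_of_disjoint h5, Finset.card_union_of_disjoint h4, h1, h2] at h6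
  omega

lemma few_bad (β : Cube N → Cube N → ℤ) (s : ℤ) (L τ : ℕ) (hτ : 0 < τ) (hL : 4 * τ ^ 2 ≤ L)
    (h : L * (univ.filter (fun q : Cube N × Cube N => |β q.1 q.2| ≤ s)).card ≤ 4 * 4 ^ N) :
    τ * (univ.filter (fun x => ¬ (τ * (univ.filter (fun y => |β x y| ≤ s)).card ≤ 2 ^ N))).card
      ≤ 2 ^ N := by
  classical
  set B := univ.filter (fun x => ¬ (τ * (univ.filter (fun y => |β x y| ≤ s)).card ≤ 2 ^ N)) with hB
  have h1 : B.card * 2 ^ N ≤ τ * (univ.filter (fun q : Cube N × Cube N => |β q.1 q.2| ≤ s)).card := by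
    have h2 : (univ.filter (fun q : Cube N × Cube N => |β q.1 q.2| ≤ s)).card =
        ∑ x, (univ.filter (fun y => |β x y| ≤ s)).card := by
      simp_rw [Finset.card_filter]
      rw [Fintype.sum_prod_type]
    rw [h2, Finset.mul_sum]
    calc B.card * 2 ^ N = ∑ x ∈ B, 2 ^ N := by rw [Finset.sum_const, smul_eq_mul]
      _ ≤ ∑ x ∈ B, τ * (univ.filter (fun y => |β x y| ≤ s)).card := by
        apply Finset.sum_le_sum
        intro x hx
        rw [hB, Finset.mem_filter] at hx
        exact (not_le.1 hx.2).le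
      _ ≤ _ := Finset.sum_le_sum_of_subset (Finset.subset_univ _)
  have h3 : (2 ^ N * (4 * τ)) * (τ * B.card) ≤ (2 ^ N * (4 * τ)) * 2 ^ N := by
    calc (2 ^ N * (4 * τ)) * (τ * B.card) = (4 * τ ^ 2) * (B.card * 2 ^ N) := by ring
      _ ≤ L * (τ * (univ.filter (fun q : Cube N × Cube N => |β q.1 q.2| ≤ s)).card) := by gcongr
      _ = τ * (L * (univ.filter (fun q : Cube N × Cube N => |β q.1 q.2| ≤ s)).card) := by ring
      _ ≤ τ * (4 * 4 ^ N) := by gcongr
      _ = (2 ^ N * (4 * τ)) * 2 ^ N := by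
        have : (4 : ℕ) ^ N = 2 ^ N * 2 ^ N := by rw [← mul_pow]; norm_num
        rw [this]; ring
  exact Nat.le_of_mul_le_mul_left h3 (by positivity)

/-- the partial sign vector of agreements -/
def ag (x x' : Cube N) : Fin N → Option Bool := fun i => if x i = x' i then some (x i) else none

lemma supp_ag (x x' : Cube N) : (supp (ag x x')).card = agree x x' := by
  unfold supp agree ag
  congr 1
  ext i
  simp only [mem_filter, mem_univ, true_and]
  split_ifs with h <;> simp [h]

lemma bil_sum (M : Fin N × Fin N → Bool) (x x' y y' : Cube N) :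
    bil M x y + bil M x y' + bil M x' y + bil M x' y' = 4 * psum M (ag x x') (ag y y') := by
  classical
  have h1 : ∀ p : Fin N × Fin N, sg (x p.1) * sg (y p.2) * sg (M p) +
      sg (x p.1) * sg (y' p.2) * sg (M p) + sg (x' p.1) * sg (y p.2) * sg (M p) +
      sg (x' p.1) * sg (y' p.2) * sg (M p) =
      if p ∈ supp (ag x x') ×ˢ supp (ag y y') then
        4 * (sg (tau (ag x x') (ag y y') p) * sg (M p)) else 0 := by
    intro p
    unfold supp ag tau
    simp only [mem_product, mem_filter, mem_univ, true_and]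
    cases x p.1 <;> cases x' p.1 <;> cases y p.2 <;> cases y' p.2 <;> cases M p <;> simp [sg]
  unfold bil psum
  rw [← Finset.sum_add_distrib, ← Finset.sum_add_distrib, ← Finset.sum_add_distrib]
  rw [Finset.sum_congr rfl (fun p _ => h1 p)]
  rw [Finset.sum_ite_mem, Finset.univ_inter, ← Finset.mul_sum]

lemma agree_triple (x y z : Cube N) : N ≤ agree x y + agree y z + agree x z := by
  unfold agree
  rw [Finset.card_filter, Finset.card_filter, Finset.card_filter, ← Finset.sum_add_distrib,
    ← Finset.sum_add_distrib]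
  calc N = ∑ i : Fin N, 1 := by simp
    _ ≤ _ := by
      apply Finset.sum_le_sum
      intro i _
      cases x i <;> cases y i <;> cases z i <;> simp

lemma agree_comm (x y : Cube N) : agree x y = agree y x := by
  unfold agree
  congr 1
  ext i
  simp only [mem_filter, mem_univ, true_and]
  exact eq_comm

lemma agree_self (x : Cube N) : agree x x = N := by
  unfold agree; simp

/-- The near-antipodality graph on a set of points of the cube. -/
def naGraph (q : Cube N → Prop) (k : ℕ) (hk : k < N) : SimpleGraph {x : Cube N // q x} where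
  Adj x y := agree x.1 y.1 ≤ k
  symm := ⟨fun x y h => by rw [agree_comm]; exact h⟩
  loopless := ⟨fun x h => by rw [agree_self] at h; omega⟩

lemma naGraph_cliqueFree (q : Cube N → Prop) (k : ℕ) (hk : k < N) (hk3 : 3 * k < N) :
    (naGraph q k hk).CliqueFree 3 := by
  classical
  intro t ht
  rw [SimpleGraph.is3Clique_iff] at ht
  obtain ⟨a, b, c, h1, h2, h3, _⟩ := ht
  have := agree_triple a.1 b.1 c.1
  have h1' : agree a.1 b.1 ≤ k := h1
  have h2' : agree a.1 c.1 ≤ k := h2
  have h3' : agree b.1 c.1 ≤ k := h3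
  omega

lemma naGraph_indep (q : Cube N → Prop) (k : ℕ) (hk : k < N) (A : Finset {x : Cube N // q x})
    (hA : ∀ x ∈ A, ∀ y ∈ A, ¬ (naGraph q k hk).Adj x y) :
    k ^ 2 * A.card ≤ N * 2 ^ N := by
  have h1 := small_of_agree N k (A.map ⟨Subtype.val, Subtype.val_injective⟩) (by
    intro x hx y hy
    rw [Finset.mem_map] at hx hy
    obtain ⟨x, hx, rfl⟩ := hx
    obtain ⟨y, hy, rfl⟩ := hy
    have h2 : ¬ (agree x.1 y.1 ≤ k) := hA x hx y hy
    exact (not_le.1 h2).le)
  rw [Finset.card_map] at h1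
  exact_mod_cast h1

lemma ncard_sub {α : Type} [Fintype α] (p q : α → Prop) [DecidablePred p] [DecidablePred q] :
    {v : {y // q y} | p v.1}.ncard = (univ.filter (fun y => q y ∧ p y)).card := by
  rw [← Set.ncard_image_of_injective _ Subtype.val_injective, ← Set.ncard_coe_finset]
  congr 1
  ext y
  simp only [Set.mem_image, Subtype.exists, Finset.coe_filter, mem_univ, true_and]
  constructor
  · rintro ⟨a, ha, hpa, rfl⟩
    exact ⟨ha, hpa⟩
  · rintro ⟨h1, h2⟩
    exact ⟨y, h1, h2, rfl⟩

lemma deg_bound (β : Cube N → ℤ) (hβ : ∀ y, β (neg y) = -β y) (s : ℤ) (hs : 0 ≤ s)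
    (q : Cube N → Prop) [DecidablePred q] (T h : ℕ) (hh : 2 * h = 2 ^ N)
    (hrow : 4 * T * (univ.filter (fun y => |β y| ≤ s)).card ≤ 2 ^ N)
    (hq : 4 * T * (univ.filter (fun y => ¬ q y)).card ≤ 2 ^ N) :
    {v : {y // q y} | s < β v.1}.ncard ≤ h ∧
      T * h ≤ T * {v : {y // q y} | s < β v.1}.ncard + h := by
  classical
  rw [ncard_sub (fun y => s < β y) q]
  have h1 := row_count β hβ s hs
  have h2 : (univ.filter (fun y => q y ∧ s < β y)).card ≤ (univ.filter (fun y => s < β y)).card := by
    apply Finset.card_le_card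
    intro y
    simp only [mem_filter, mem_univ, true_and]
    exact fun h => h.2
  have h3 : (univ.filter (fun y => s < β y)).card ≤
      (univ.filter (fun y => q y ∧ s < β y)).card + (univ.filter (fun y => ¬ q y)).card := by
    rw [← Finset.card_union_of_disjoint]
    · apply Finset.card_le_card
      intro y
      simp only [mem_filter, mem_univ, true_and, mem_union]
      intro hy
      by_cases hqy : q y
      · exact Or.inl ⟨hqy, hy⟩
      · exact Or.inr hqy
    · rw [Finset.disjoint_filter]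
      intro y _ h4 h5
      exact h5 h4.1
  generalize (univ.filter (fun y => q y ∧ s < β y)).card = n' at *
  generalize (univ.filter (fun y => s < β y)).card = a at *
  generalize (univ.filter (fun y => |β y| ≤ s)).card = r at *
  generalize (univ.filter (fun y => ¬ q y)).card = b at *
  rw [← hh] at h1 hrow hq
  constructor
  · omega
  · nlinarith

end

/-- The Bollobás–Erdős gadget with precision `1/T`. -/
structure IsGadget (T h : ℕ) (U V : Type) [Fintype U] [Fintype V] (GU : SimpleGraph U)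
    (GV : SimpleGraph V) (H : U → V → Prop) : Prop where
  hpos : 0 < h
  cardU : Fintype.card U ≤ 2 * h
  cardV : Fintype.card V ≤ 2 * h
  cardU' : T * (2 * h) ≤ T * Fintype.card U + h
  cardV' : T * (2 * h) ≤ T * Fintype.card V + h
  triU : GU.CliqueFree 3
  triV : GV.CliqueFree 3
  k4 : ∀ u u' v v', GU.Adj u u' → GV.Adj v v' → H u v → H u v' → H u' v → H u' v' → False
  degU : ∀ u, {v | H u v}.ncard ≤ h
  degU' : ∀ u, T * h ≤ T * {v | H u v}.ncard + h
  degV : ∀ v, {u | H u v}.ncard ≤ h
  degV' : ∀ v, T * h ≤ T * {u | H u v}.ncard + h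
  indU : ∀ A : Finset U, (∀ x ∈ A, ∀ y ∈ A, ¬ GU.Adj x y) → T * A.card ≤ h
  indV : ∀ A : Finset V, (∀ x ∈ A, ∀ y ∈ A, ¬ GV.Adj x y) → T * A.card ≤ h

lemma card_sub {N : ℕ} (q : Cube N → Prop) [DecidablePred q] (T h : ℕ) (hh : 2 * h = 2 ^ N)
    (hq : 4 * T * (univ.filter (fun y => ¬ q y)).card ≤ 2 ^ N) :
    Fintype.card {y // q y} ≤ 2 * h ∧ T * (2 * h) ≤ T * Fintype.card {y // q y} + h := by
  rw [Fintype.card_subtype]
  have h1 : (univ.filter (fun y => q y)).card + (univ.filter (fun y => ¬ q y)).card = 2 ^ N := by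
    rw [Finset.card_filter_add_card_filter_not]
    simp
  generalize (univ.filter (fun y => q y)).card = a at *
  generalize (univ.filter (fun y => ¬ q y)).card = b at *
  rw [← hh] at h1 hq
  constructor
  · omega
  · nlinarith

theorem gadget_core (T L N k : ℕ) (hT : 0 < T) (s : ℤ) (hs0 : 0 ≤ s)
    (hL2 : 4 * (4 * T) ^ 2 ≤ L) (hL3 : 2 * T ≤ L ^ 2) (h3k : 3 * k < N) (hkN : k < N)
    (hkk : k ^ 2 = N * L ^ 2)
    (M : Fin N × Fin N → Bool)
    (hM1 : ∀ u v : Fin N → Option Bool, (supp u).card ≤ k → (supp v).card ≤ k →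
        psum M u v ≤ s)
    (hM2 : L * (univ.filter (fun q : Cube N × Cube N => |bil M q.1 q.2| ≤ s)).card ≤ 4 * 4 ^ N) :
    ∃ (h : ℕ) (U V : Type) (_ : Fintype U) (_ : Fintype V)
    (GU : SimpleGraph U) (GV : SimpleGraph V) (H : U → V → Prop), IsGadget T h U V GU GV H := by
  classical
  obtain ⟨h, hh⟩ : ∃ h : ℕ, 2 * h = 2 ^ N := by
    have hN1 : 1 ≤ N := by omega
    refine ⟨2 ^ (N - 1), ?_⟩
    rw [← pow_succ']
    congr 1
    omega
  set qU : Cube N → Prop := fun x =>
    4 * T * (univ.filter (fun y => |bil M x y| ≤ s)).card ≤ 2 ^ N with hqU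
  set qV : Cube N → Prop := fun y =>
    4 * T * (univ.filter (fun x => |bil M x y| ≤ s)).card ≤ 2 ^ N with hqV
  have hbU : 4 * T * (univ.filter (fun x => ¬ qU x)).card ≤ 2 ^ N :=
    few_bad (fun x y => bil M x y) s L (4 * T) (by omega) hL2 hM2
  have hM2' : L * (univ.filter (fun q : Cube N × Cube N =>
      |(fun y x => bil M x y) q.1 q.2| ≤ s)).card ≤ 4 * 4 ^ N := by
    refine le_trans (le_of_eq ?_) hM2
    congr 1
    apply Finset.card_bij' (fun q _ => (q.2, q.1)) (fun q _ => (q.2, q.1)) <;> simp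
  have hbV : 4 * T * (univ.filter (fun y => ¬ qV y)).card ≤ 2 ^ N :=
    few_bad (fun y x => bil M x y) s L (4 * T) (by omega) hL2 hM2'
  have hindep : ∀ (q : Cube N → Prop) (A : Finset {x : Cube N // q x}),
      (∀ x ∈ A, ∀ y ∈ A, ¬ (naGraph q k hkN).Adj x y) → T * A.card ≤ h := by
    intro q A hA
    have h1 := naGraph_indep q k hkN A hA
    have hNpos : 0 < N := by omega
    have h2 : N * (L ^ 2 * A.card) ≤ N * 2 ^ N := by
      rw [← mul_assoc, ← hkk]
      exact h1
    have h3 := Nat.le_of_mul_le_mul_left h2 hNpos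
    have h4 : 2 * T * A.card ≤ L ^ 2 * A.card := Nat.mul_le_mul_right _ hL3
    rw [← hh] at h3
    nlinarith
  refine ⟨h, {x // qU x}, {y // qV y}, inferInstance, inferInstance,
    naGraph qU k hkN, naGraph qV k hkN, fun u v => s < bil M u.1 v.1, ?_⟩
  exact {
    hpos := by
      have : 0 < 2 ^ N := by positivity
      omega
    cardU := (card_sub qU T h hh hbU).1
    cardV := (card_sub qV T h hh hbV).1
    cardU' := (card_sub qU T h hh hbU).2
    cardV' := (card_sub qV T h hh hbV).2
    triU := naGraph_cliqueFree _ _ _ h3k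
    triV := naGraph_cliqueFree _ _ _ h3k
    k4 := by
      intro u u' v v' hu hv h1 h2 h3 h4
      have h5 := bil_sum M u.1 u'.1 v.1 v'.1
      have h6 : (supp (ag u.1 u'.1)).card ≤ k := by rw [supp_ag]; exact hu
      have h7 : (supp (ag v.1 v'.1)).card ≤ k := by rw [supp_ag]; exact hv
      have h8 := hM1 _ _ h6 h7
      linarith
    degU := fun u => (deg_bound (fun y => bil M u.1 y) (fun y => bil_neg_right M u.1 y) s hs0 qV T h
      hh u.2 hbV).1
    degU' := fun u => (deg_bound (fun y => bil M u.1 y) (fun y => bil_neg_right M u.1 y) s hs0 qV T h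
      hh u.2 hbV).2
    degV := fun v => (deg_bound (fun x => bil M x v.1) (fun x => bil_neg_left M x v.1) s hs0 qU T h
      hh v.2 hbU).1
    degV' := fun v => (deg_bound (fun x => bil M x v.1) (fun x => bil_neg_left M x v.1) s hs0 qU T h
      hh v.2 hbU).2
    indU := fun A hA => hindep _ A hA
    indV := fun A hA => hindep _ A hA }

theorem gadget (T : ℕ) (hT : 0 < T) : ∃ (h : ℕ) (U V : Type) (_ : Fintype U) (_ : Fintype V)
    (GU : SimpleGraph U) (GV : SimpleGraph V) (H : U → V → Prop), IsGadget T h U V GU GV H := by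
  obtain ⟨L, hL1, hL2, hL3, hev⟩ : ∃ L : ℕ, 40000 ≤ L ∧ 4 * (4 * T) ^ 2 ≤ L ∧ 2 * T ≤ L ^ 2 ∧
      Even L := by
    refine ⟨2 * (20000 + 32 * T ^ 2), by omega, by nlinarith, by nlinarith, ⟨20000 + 32 * T ^ 2, by ring⟩⟩
  have hLpos : 0 < L := by omega
  obtain ⟨M, hM1, hM2⟩ := exists_matrix L hL1 hev
  have h3k : 3 * L ^ 7 < L ^ 12 := by
    have h1 : L ^ 12 = L ^ 5 * L ^ 7 := by ring
    rw [h1]
    have h2 : L ^ 1 ≤ L ^ 5 := Nat.pow_le_pow_right hLpos (by norm_num)
    have h3 : 0 < L ^ 7 := by positivity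
    nlinarith
  exact gadget_core T L (L ^ 12) (L ^ 7) hT ((L ^ 11 : ℕ) : ℤ) (by positivity) hL2 hL3 h3k
    (by omega) (by ring) M hM1 hM2

end Pool.Agent.Helper55.BE
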