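import Mathlib
import Pool.Agent.Helper55.Gadget
import Pool.Agent.Helper55.Assign

set_option autoImplicit false

namespace Pool.Agent.Helper55.BE

open Finset

lemma side (W : Type) [Fintype W] (h m c q Δ : ℕ) (d1 d2 : W → ℕ)
    (hm : 1 ≤ m) (hΔ : 1 ≤ Δ) (hc2 : 2 ≤ Fintype.card W) (hc : Fintype.card W ≤ 2 * h)
    (h1 : ∀ w, d1 w ≤ Δ) (h2 : ∀ w, d2 w ≤ h) (h3 : ∀ w, h ≤ d2 w + Δ)
    (hq : 2 * (Δ * m) + h * c + h ≤ q)
    (hAq : q * (m * Δ + h * m) < Fintype.card W * ((m - c) * (h * c))) :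
    ∃ t : W × Fin m → ℕ,
      (∀ x, d1 x.1 * m + d2 x.1 * ((x.2 : ℕ) - c) ≤ t x) ∧
      (∀ x, t x ≤ d1 x.1 * m + d2 x.1 * ((x.2 : ℕ) - c) + q) ∧
      (∀ x, t x < m * Δ + h * m) ∧
      (q * (m * Δ + h * m) < ∑ x, (t x - (d1 x.1 * m + d2 x.1 * ((x.2 : ℕ) - c)))) ∧
      (∀ d, {x | t x = d}.ncard ≤ 2) ∧ {x | t x = m * Δ}.ncard = 2 ∧ ∀ x, 1 ≤ t x := by
  classical
  set e := Fintype.equivFin W with he
  have hk : ∀ w, (e w : ℕ) / 2 < h := fun w => by
    have := (e w).2
    omega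
  have hh : 0 < h := by omega
  obtain ⟨t, ht⟩ : ∃ t : W × Fin m → ℕ, ∀ x, t x = m * Δ + h * (x.2 : ℕ) + (e x.1 : ℕ) / 2 :=
    ⟨_, fun _ => rfl⟩
  refine ⟨t, ?_, ?_, ?_, ?_, ?_, ?_, ?_⟩
  · intro x
    have a1 : d1 x.1 * m ≤ m * Δ := by
      rw [mul_comm]; exact Nat.mul_le_mul_left _ (h1 _)
    have a2 : d2 x.1 * ((x.2 : ℕ) - c) ≤ h * (x.2 : ℕ) :=
      Nat.mul_le_mul (h2 _) (Nat.sub_le _ _)
    rw [ht]
    omega
  · intro x
    have a3 : h * (x.2 : ℕ) ≤ d2 x.1 * ((x.2 : ℕ) - c) + Δ * m + h * c := by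
      rcases le_or_gt c (x.2 : ℕ) with hcx | hcx
      · obtain ⟨j, hj⟩ := Nat.exists_eq_add_of_le hcx
        have hjm : j ≤ m := by have := x.2.2; omega
        rw [hj, Nat.add_sub_cancel_left]
        have a4 : h * j ≤ (d2 x.1 + Δ) * j := Nat.mul_le_mul_right _ (h3 _)
        have a5 : Δ * j ≤ Δ * m := Nat.mul_le_mul_left _ hjm
        nlinarith
      · have : h * (x.2 : ℕ) ≤ h * c := Nat.mul_le_mul_left _ hcx.le
        omega
    have a6 := hk x.1
    have a7 : m * Δ = Δ * m := mul_comm _ _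
    rw [ht]
    omega
  · intro x
    have a6 := hk x.1
    have a7 : h * (x.2 : ℕ) + h ≤ h * m := by
      have := x.2.2
      calc h * (x.2 : ℕ) + h = h * ((x.2 : ℕ) + 1) := by ring
        _ ≤ h * m := Nat.mul_le_mul_left _ this
    rw [ht]
    omega
  · refine lt_of_lt_of_le hAq ?_
    have a7 : ∑ i : Fin m, (if c ≤ (i : ℕ) then h * c else 0) = (m - c) * (h * c) := by
      rw [← Finset.sum_filter, Finset.sum_const, smul_eq_mul]
      congr 1
      rcases lt_or_ge c m with hs | hs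
      · have h6 : univ.filter (fun i : Fin m => c ≤ (i : ℕ)) = Finset.Ici (⟨c, hs⟩ : Fin m) := by
          ext s
          simp [Fin.le_def]
        rw [h6, Fin.card_Ici]
      · have h6 : univ.filter (fun i : Fin m => c ≤ (i : ℕ)) = ∅ := by
          ext s
          have := s.2
          simp only [mem_filter, mem_univ, true_and, Finset.notMem_empty, iff_false]
          omega
        rw [h6, Finset.card_empty]
        omega
    have a8 : ∑ x : W × Fin m, (if c ≤ (x.2 : ℕ) then h * c else 0) =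
        Fintype.card W * ((m - c) * (h * c)) := by
      rw [Fintype.sum_prod_type]
      calc _ = ∑ x : W, (m - c) * (h * c) := Finset.sum_congr rfl (fun x _ => a7)
        _ = _ := by rw [Finset.sum_const, Finset.card_univ, smul_eq_mul]
    rw [← a8]
    apply Finset.sum_le_sum
    intro x _
    split_ifs with hcx
    · obtain ⟨j, hj⟩ := Nat.exists_eq_add_of_le hcx
      rw [ht, hj, Nat.add_sub_cancel_left]
      have a1 : d1 x.1 * m ≤ m * Δ := by
        rw [mul_comm]; exact Nat.mul_le_mul_left _ (h1 _)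
      have a2 : d2 x.1 * j ≤ h * j := Nat.mul_le_mul_right _ (h2 _)
      have a9 : h * (c + j) = h * c + h * j := by ring
      omega
    · exact Nat.zero_le _
  · intro d
    have hinj : Set.InjOn (fun x : W × Fin m => (e x.1 : ℕ) % 2) {x | t x = d} := by
      intro x hx y hy hxy
      simp only [Set.mem_ofPred_eq] at hx hy hxy
      rw [ht] at hx hy
      have b1 := hk x.1
      have b2 := hk y.1
      have b3 : h * (x.2 : ℕ) + (e x.1 : ℕ) / 2 = h * (y.2 : ℕ) + (e y.1 : ℕ) / 2 := by omega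
      have b4 : (x.2 : ℕ) = y.2 := by
        have c1 : (h * (x.2 : ℕ) + (e x.1 : ℕ) / 2) / h = x.2 := by
          rw [Nat.mul_add_div hh, Nat.div_eq_of_lt b1, add_zero]
        have c2 : (h * (y.2 : ℕ) + (e y.1 : ℕ) / 2) / h = y.2 := by
          rw [Nat.mul_add_div hh, Nat.div_eq_of_lt b2, add_zero]
        rw [← c1, ← c2, b3]
      have b5 : (e x.1 : ℕ) / 2 = (e y.1 : ℕ) / 2 := by
        rw [b4] at b3; omega
      have b6 : (e x.1 : ℕ) = e y.1 := by omega
      have b7 : x.1 = y.1 := e.injective (Fin.ext b6)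
      exact Prod.ext b7 (Fin.ext b4)
    have hmaps : ∀ x ∈ {x | t x = d}, (fun x : W × Fin m => (e x.1 : ℕ) % 2) x ∈
        ((Finset.range 2 : Finset ℕ) : Set ℕ) := by
      intro x _
      simp only [Finset.coe_range, Set.mem_Iio]
      omega
    have := Set.ncard_le_ncard_of_injOn _ hmaps hinj (Set.toFinite _)
    rwa [Set.ncard_coe_finset, Finset.card_range] at this
  · have h0 : 0 < m := hm
    have heq : {x : W × Fin m | t x = m * Δ} =
        {(e.symm ⟨0, by omega⟩, ⟨0, h0⟩), (e.symm ⟨1, by omega⟩, ⟨0, h0⟩)} := by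
      ext ⟨w, i⟩
      simp only [Set.mem_ofPred_eq, Set.mem_insert_iff, Set.mem_singleton_iff, Prod.mk.injEq, ht]
      constructor
      · intro hx
        have b1 : h * (i : ℕ) = 0 := by omega
        have b2 : (i : ℕ) = 0 := by
          rcases Nat.mul_eq_zero.1 b1 with h | h
          · omega
          · exact h
        have b3 : (e w : ℕ) < 2 := by omega
        have b4 : i = ⟨0, h0⟩ := Fin.ext b2
        rcases Nat.lt_succ_iff_lt_or_eq.1 b3 with h | h
        · left
          refine ⟨?_, b4⟩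
          rw [Equiv.eq_symm_apply]
          exact Fin.ext (by simp only; omega)
        · right
          refine ⟨?_, b4⟩
          rw [Equiv.eq_symm_apply]
          exact Fin.ext h
      · rintro (⟨rfl, rfl⟩ | ⟨rfl, rfl⟩) <;> simp
    rw [heq]
    apply Set.ncard_pair
    intro hcon
    have := (Prod.mk.inj hcon).1
    have := e.symm.injective this
    simp at this
  · intro x
    have : 1 ≤ m * Δ := Nat.mul_pos hm hΔ
    rw [ht]
    omega

section

variable {U V : Type} [Fintype U] [Fintype V]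

/-- blow-up of a graph -/
abbrev blow (GU : SimpleGraph U) (m : ℕ) : SimpleGraph (U × Fin m) := GU.comap Prod.fst

/-- cross adjacency of the blow-up -/
def cross (H : U → V → Prop) (m c : ℕ) (x : U × Fin m) (y : V × Fin m) : Prop :=
  H x.1 y.1 ∧ m + c ≤ (x.2 : ℕ) + (y.2 : ℕ)

omit [Fintype U] in
lemma blow_cliqueFree (GU : SimpleGraph U) (m : ℕ) (h : GU.CliqueFree 3) :
    (blow GU m).CliqueFree 3 := by
  classical
  intro t ht
  rw [SimpleGraph.is3Clique_iff] at ht
  obtain ⟨a, b, c, h1, h2, h3, _⟩ := ht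
  exact h {a.1, b.1, c.1} (SimpleGraph.is3Clique_triple_iff.2 ⟨h1, h2, h3⟩)

lemma ncard_ge (m a : ℕ) : {j : Fin m | a ≤ (j : ℕ)}.ncard = m - a := by
  rcases lt_or_ge a m with hs | hs
  · have h6 : {s : Fin m | a ≤ (s : ℕ)} =
        ((Finset.Ici (⟨a, hs⟩ : Fin m) : Finset (Fin m)) : Set (Fin m)) := by
      ext s
      simp [Fin.le_def]
    rw [h6, Set.ncard_coe_finset, Fin.card_Ici]
  · have h6 : {s : Fin m | a ≤ (s : ℕ)} = ∅ := by
      ext s
      have := s.2
      simp only [Set.mem_ofPred_eq, Set.mem_empty_iff_false, iff_false]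
      omega
    rw [h6, Set.ncard_empty]
    omega

omit [Fintype U] in
lemma blow_deg (GU : SimpleGraph U) (m : ℕ) (x : U × Fin m) :
    {x' | (blow GU m).Adj x x'}.ncard = {u | GU.Adj x.1 u}.ncard * m := by
  have h1 : {x' | (blow GU m).Adj x x'} = {u | GU.Adj x.1 u} ×ˢ (Set.univ : Set (Fin m)) := by
    ext ⟨u, i⟩
    simp
  rw [h1, Set.ncard_prod, Set.ncard_univ]
  simp

omit [Fintype U] [Fintype V] in
lemma cross_deg (H : U → V → Prop) (m c : ℕ) (x : U × Fin m) :
    {y | cross H m c x y}.ncard = {v | H x.1 v}.ncard * ((x.2 : ℕ) - c) := by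
  have h1 : {y | cross H m c x y} =
      {v | H x.1 v} ×ˢ {j : Fin m | m + c - (x.2 : ℕ) ≤ (j : ℕ)} := by
    ext ⟨v, j⟩
    simp only [cross, Set.mem_ofPred_eq, Set.mem_prod]
    constructor
    · rintro ⟨h2, h3⟩
      exact ⟨h2, by omega⟩
    · rintro ⟨h2, h3⟩
      exact ⟨h2, by omega⟩
  rw [h1, Set.ncard_prod, ncard_ge]
  congr 1
  have := x.2.2
  omega

omit [Fintype U] [Fintype V] in
lemma cross_deg' (H : U → V → Prop) (m c : ℕ) (y : V × Fin m) :
    {x | cross H m c x y}.ncard = {u | H u y.1}.ncard * ((y.2 : ℕ) - c) := by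
  have h1 : {x | cross H m c x y} =
      {u | H u y.1} ×ˢ {j : Fin m | m + c - (y.2 : ℕ) ≤ (j : ℕ)} := by
    ext ⟨v, j⟩
    simp only [cross, Set.mem_ofPred_eq, Set.mem_prod]
    constructor
    · rintro ⟨h2, h3⟩
      exact ⟨h2, by omega⟩
    · rintro ⟨h2, h3⟩
      exact ⟨h2, by omega⟩
  rw [h1, Set.ncard_prod, ncard_ge]
  congr 1
  have := y.2.2
  omega

omit [Fintype U] in
lemma blow_indep (GU : SimpleGraph U) (m α : ℕ)
    (hα : ∀ A : Finset U, (∀ x ∈ A, ∀ y ∈ A, ¬ GU.Adj x y) → A.card ≤ α)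
    (A : Finset (U × Fin m)) (hA : ∀ x ∈ A, ∀ y ∈ A, ¬ (blow GU m).Adj x y) :
    A.card ≤ α * m := by
  classical
  have h1 : A ⊆ (A.image Prod.fst) ×ˢ (univ : Finset (Fin m)) := by
    intro x hx
    rw [Finset.mem_product]
    exact ⟨Finset.mem_image_of_mem _ hx, Finset.mem_univ _⟩
  have h2 := Finset.card_le_card h1
  rw [Finset.card_product, Finset.card_univ, Fintype.card_fin] at h2
  refine h2.trans (Nat.mul_le_mul_right _ (hα _ ?_))
  intro x hx y hy hxy
  rw [Finset.mem_image] at hx hy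
  obtain ⟨x, hx, rfl⟩ := hx
  obtain ⟨y, hy, rfl⟩ := hy
  exact hA x hx y hy hxy

lemma deg_le_of_triangleFree (GU : SimpleGraph U) (T h : ℕ) (hT : 0 < T) (h3 : GU.CliqueFree 3)
    (hind : ∀ A : Finset U, (∀ x ∈ A, ∀ y ∈ A, ¬ GU.Adj x y) → T * A.card ≤ h) (u : U) :
    {u' | GU.Adj u u'}.ncard ≤ h / T := by
  classical
  rw [Nat.le_div_iff_mul_le hT, mul_comm]
  have h1 : {u' | GU.Adj u u'} = ((univ.filter (fun u' => GU.Adj u u') : Finset U) : Set U) := by
    ext x; simp
  rw [h1, Set.ncard_coe_finset]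
  apply hind
  intro x hx y hy hxy
  simp only [mem_filter, mem_univ, true_and] at hx hy
  exact h3 {u, x, y} (SimpleGraph.is3Clique_triple_iff.2 ⟨hx, hy, hxy⟩)

end

theorem blow_main (T h : ℕ) (U V : Type) [Fintype U] [Fintype V] (GU : SimpleGraph U)
    (GV : SimpleGraph V) (H : U → V → Prop) (hG : IsGadget T h U V GU GV H) (hT : 2 ≤ T)
    (m c q q' : ℕ) (hm : 1 ≤ m) (hq : q ≤ q') (hq' : q' ≤ q + 1)
    (hq1 : 2 * (h / T * m) + h * c + h ≤ q)
    (hA : q' * (m * (h / T) + h * m) < Fintype.card U * ((m - c) * (h * c)))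
    (hA' : q' * (m * (h / T) + h * m) < Fintype.card V * ((m - c) * (h * c))) :
    ∃ G : SimpleGraph (VV (U × Fin m) (V × Fin m) q q'), G.CliqueFree 4 ∧
      (∀ v, 1 ≤ (G.neighborSet v).ncard) ∧
      (∀ d : ℕ, {v | (G.neighborSet v).ncard = d}.ncard ≤ 4) ∧
      (∃ d : ℕ, {v | (G.neighborSet v).ncard = d}.ncard = 4) ∧
      (∀ I : Finset _, (∀ v ∈ I, ∀ w ∈ I, ¬ G.Adj v w) →
        I.card ≤ h / T * m + h / T * m + (q + q')) := by
  classical
  have hT0 : 0 < T := by omega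
  have hh := hG.hpos
  -- `U`, `V` are non-empty
  have hcU : 0 < Fintype.card U := by
    by_contra hcon
    have h0 : Fintype.card U = 0 := by omega
    rw [h0, zero_mul] at hA
    omega
  have hcV : 0 < Fintype.card V := by
    by_contra hcon
    have h0 : Fintype.card V = 0 := by omega
    rw [h0, zero_mul] at hA'
    omega
  obtain ⟨u0⟩ := Fintype.card_pos_iff.1 hcU
  have hΔ : 1 ≤ h / T := by
    rw [Nat.le_div_iff_mul_le hT0]
    have := hG.indU {u0} (by
      intro x hx y hy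
      rw [Finset.mem_singleton] at hx hy
      rw [hx, hy]
      exact SimpleGraph.irrefl _)
    rw [Finset.card_singleton] at this
    omega
  have h2T : T ≤ h := by
    have := (Nat.le_div_iff_mul_le hT0).1 hΔ
    omega
  have hcardU2 : 2 ≤ Fintype.card U := by
    have h1 := hG.cardU'
    by_contra hcon
    have h2 : Fintype.card U ≤ 1 := by omega
    have h3 : T * Fintype.card U ≤ T * 1 := Nat.mul_le_mul_left _ h2
    nlinarith
  have hcardV2 : 2 ≤ Fintype.card V := by
    have h1 := hG.cardV'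
    by_contra hcon
    have h2 : Fintype.card V ≤ 1 := by omega
    have h3 : T * Fintype.card V ≤ T * 1 := Nat.mul_le_mul_left _ h2
    nlinarith
  have hlow : ∀ d : ℕ, T * h ≤ T * d + h → h ≤ d + h / T := by
    intro d hd
    by_contra hcon
    push Not at hcon
    have h1 : h / T < h - d := by omega
    rw [Nat.div_lt_iff_lt_mul hT0] at h1
    obtain ⟨e, he⟩ : ∃ e, h = d + e := ⟨h - d, by omega⟩
    have h2 : h - d = e := by omega
    rw [h2] at h1
    have h3 : T * h = T * d + T * e := by rw [he]; ring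
    nlinarith
  obtain ⟨tX, x1, x2, x3, x4, x5, x6, x7⟩ := side U h m c q' (h / T)
    (fun u => {u' | GU.Adj u u'}.ncard) (fun u => {v | H u v}.ncard) hm hΔ hcardU2 hG.cardU
    (fun u => deg_le_of_triangleFree GU T h hT0 hG.triU hG.indU u) hG.degU
    (fun u => hlow _ (hG.degU' u)) (by omega) hA
  obtain ⟨tY, y1, y2, y3, y4, y5, y6, y7⟩ := side V h m c q (h / T)
    (fun u => {u' | GV.Adj u u'}.ncard) (fun v => {u | H u v}.ncard) hm hΔ hcardV2 hG.cardV
    (fun u => deg_le_of_triangleFree GV T h hT0 hG.triV hG.indV u) hG.degV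
    (fun u => hlow _ (hG.degV' u)) hq1 (lt_of_le_of_lt (Nat.mul_le_mul_right _ hq) hA')
  have eX : ∀ x : U × Fin m, {x' | (blow GU m).Adj x x'}.ncard + {y | cross H m c x y}.ncard =
      {u' | GU.Adj x.1 u'}.ncard * m + {v | H x.1 v}.ncard * ((x.2 : ℕ) - c) := by
    intro x
    rw [blow_deg, cross_deg]
  have eY : ∀ y : V × Fin m, {x | cross H m c x y}.ncard + {y' | (blow GV m).Adj y y'}.ncard =
      {u' | GV.Adj y.1 u'}.ncard * m + {u | H u y.1}.ncard * ((y.2 : ℕ) - c) := by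
    intro y
    rw [blow_deg, cross_deg', add_comm]
  refine assembly (blow GU m) (blow GV m) (cross H m c) (blow_cliqueFree GU m hG.triU)
    (blow_cliqueFree GV m hG.triV) ?_ q q' hq hq' tX tY (m * (h / T) + h * m)
    ?_ ?_ ?_ ?_ x3 y3 ?_ ?_ x5 y5 (m * (h / T)) ?_ x6 y6 x7 y7 (h / T * m) (h / T * m) ?_ ?_
  · intro x x' y y' hx hy h1 h2 h3 h4
    exact hG.k4 _ _ _ _ hx hy h1.1 h2.1 h3.1 h4.1
  · intro x; rw [eX]; exact x1 x
  · intro x; rw [eX]; exact x2 x
  · intro y; rw [eY]; exact y1 y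
  · intro y; rw [eY]; exact y2 y
  · simp_rw [eX]; exact x4
  · simp_rw [eY]; exact y4
  · have : 0 < h * m := Nat.mul_pos hh hm
    omega
  · apply blow_indep
    intro A hA
    rw [Nat.le_div_iff_mul_le hT0, mul_comm]
    exact hG.indU A hA
  · apply blow_indep
    intro A hA
    rw [Nat.le_div_iff_mul_le hT0, mul_comm]
    exact hG.indV A hA

end Pool.Agent.Helper55.BE
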