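import Mathlib
import Pool.Agent.Helper55.Blow

set_option autoImplicit false

namespace Pool.Agent.Helper55.BE

open Finset

/-- The requirements on the graphs `G_n`. -/
def Valid {W : Type} (G : SimpleGraph W) : Prop :=
  G.CliqueFree 4 ∧
  (∀ v : W, 1 ≤ (G.neighborSet v).ncard) ∧
  (∀ d : ℕ, {v : W | (G.neighborSet v).ncard = d}.ncard ≤ 4) ∧
  (∃ d : ℕ, {v : W | (G.neighborSet v).ncard = d}.ncard = 4)

lemma ncard_equiv {α β : Type} (e : α ≃ β) (p : α → Prop) :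
    {b | p (e.symm b)}.ncard = {a | p a}.ncard := by
  rw [← Set.ncard_image_of_injective {a | p a} e.injective]
  congr 1
  ext b
  simp only [Set.mem_ofPred_eq, Set.mem_image]
  constructor
  · intro h
    exact ⟨e.symm b, h, by simp⟩
  · rintro ⟨a, ha, rfl⟩
    simpa using ha

lemma valid_transport {W W' : Type} (e : W ≃ W') (G : SimpleGraph W) (h : Valid G) :
    Valid (G.comap e.symm) := by
  obtain ⟨h1, h2, h3, h4⟩ := h
  have hn : ∀ v, ((G.comap e.symm).neighborSet v).ncard = (G.neighborSet (e.symm v)).ncard := by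
    intro v
    exact ncard_equiv e (fun w => G.Adj (e.symm v) w)
  refine ⟨?_, ?_, ?_, ?_⟩
  · exact SimpleGraph.CliqueFree.comap
      (SimpleGraph.Embedding.comap e.symm.toEmbedding G).isContained h1
  · intro v
    rw [hn]; exact h2 _
  · intro d
    simp_rw [hn]
    rw [ncard_equiv e (fun w => (G.neighborSet w).ncard = d)]
    exact h3 d
  · obtain ⟨d, hd⟩ := h4
    refine ⟨d, ?_⟩
    simp_rw [hn]
    rw [ncard_equiv e (fun w => (G.neighborSet w).ncard = d)]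
    exact hd

lemma numeric_final (a h cu cv n : ℕ) (ha : 10 ≤ a) (hh : 0 < h) (cU : cu ≤ 2 * h)
    (cV : cv ≤ 2 * h) (cU' : 8 * a * (2 * h) ≤ 8 * a * cu + h)
    (cV' : 8 * a * (2 * h) ≤ 8 * a * cv + h)
    (hn : ((cu + cv) * a + 3 * h) * (20 * a + 40) ≤ n) :
    ∃ m c q q' : ℕ, 1 ≤ m ∧ q ≤ q' ∧ q' ≤ q + 1 ∧ 2 * (h / (8 * a) * m) + h * c + h ≤ q ∧
      q' * (m * (h / (8 * a)) + h * m) < cu * ((m - c) * (h * c)) ∧
      q' * (m * (h / (8 * a)) + h * m) < cv * ((m - c) * (h * c)) ∧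
      cu * m + cv * m + (q + q') = n ∧
      a * (h / (8 * a) * m + h / (8 * a) * m + (q + q')) ≤ n := by
  obtain ⟨L0, hL0⟩ : ∃ L0, L0 = cu + cv := ⟨_, rfl⟩
  obtain ⟨K0, hK0⟩ : ∃ K0, K0 = L0 * a + 3 * h := ⟨_, rfl⟩
  rw [← hL0, ← hK0] at hn
  have hK0pos : 0 < K0 := by omega
  obtain ⟨c, hc⟩ : ∃ c, c = n / K0 := ⟨_, rfl⟩
  obtain ⟨ρ, hρ⟩ : ∃ ρ, ρ = n % K0 := ⟨_, rfl⟩
  have hnc : K0 * c + ρ = n := by rw [hc, hρ]; exact Nat.div_add_mod n K0
  have hρK : ρ < K0 := by rw [hρ]; exact Nat.mod_lt _ hK0pos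
  have hcbig : 20 * a + 40 ≤ c := by
    rw [hc, Nat.le_div_iff_mul_le hK0pos, mul_comm]
    exact hn
  clear hc hρ hn
  obtain ⟨P, hP⟩ : ∃ P, P = h * c := ⟨_, rfl⟩
  obtain ⟨Δ, hΔ⟩ : ∃ Δ, Δ = h / (8 * a) := ⟨_, rfl⟩
  have hΔ8 : 8 * a * Δ ≤ h := by rw [hΔ]; exact Nat.mul_div_le h (8 * a)
  rw [← hΔ]
  clear hΔ
  obtain ⟨m, hm⟩ : ∃ m, m = a * c := ⟨_, rfl⟩
  -- basic inequalities
  have hx : 8 * (Δ * m) ≤ P := by
    calc 8 * (Δ * m) = (8 * a * Δ) * c := by rw [hm]; ring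
      _ ≤ h * c := Nat.mul_le_mul_right _ hΔ8
      _ = P := hP.symm
  have hPh : 8 * h ≤ P := by
    rw [hP, mul_comm]
    exact Nat.mul_le_mul_left _ (by omega)
  have hρP : 5 * (ρ + 1) ≤ P := by
    have h1 : K0 ≤ h * (4 * a + 3) := by
      rw [hK0]
      have : L0 * a ≤ (4 * h) * a :=
        Nat.mul_le_mul_right _ (by omega)
      nlinarith
    have h2 : h * (20 * a + 40) ≤ P := by rw [hP]; exact Nat.mul_le_mul_left _ hcbig
    have h3 : h * (20 * a + 40) = 5 * (h * (4 * a + 3)) + h * 25 := by ring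
    omega
  have hC : ∀ C : ℕ, 8 * a * (2 * h) ≤ 8 * a * C + h → 19 * P ≤ 10 * (C * c) := by
    intro C hC'
    have h1 : 19 * h ≤ 10 * C := by
      by_contra hcon
      push Not at hcon
      have h2 : 8 * a * (10 * C) < 8 * a * (19 * h) :=
        Nat.mul_lt_mul_of_pos_left hcon (by omega)
      have h3 : 8 * a * (10 * C) = 10 * (8 * a * C) := by ring
      have h4 : 8 * a * (19 * h) + 8 * a * h = 10 * (8 * a * (2 * h)) := by ring
      have h5 : 80 * h ≤ 8 * a * h := Nat.mul_le_mul_right _ (by omega)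
      omega
    calc 19 * P = (19 * h) * c := by rw [hP]; ring
      _ ≤ (10 * C) * c := Nat.mul_le_mul_right _ h1
      _ = _ := by ring
  have hcU := hC cu cU'
  have hcV := hC cv cV'
  obtain ⟨R, hR⟩ : ∃ R, R = 3 * P + ρ := ⟨_, rfl⟩
  obtain ⟨q, hq⟩ : ∃ q, q = R / 2 := ⟨_, rfl⟩
  obtain ⟨q', hq'⟩ : ∃ q', q' = R - q := ⟨_, rfl⟩
  have hq'10 : 10 * q' ≤ 16 * P := by omega
  have hmc : m - c = (a - 1) * c := by
    rw [hm, Nat.sub_mul, one_mul]
  have hbig : ∀ C : ℕ, 19 * P ≤ 10 * (C * c) →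
      q' * (m * Δ + h * m) < C * ((m - c) * (h * c)) := by
    intro C hC
    have hPpos : 0 < P := by omega
    have e1 : 8 * (m * Δ + h * m) ≤ (8 * a + 1) * P := by
      have e5 : h * m = a * P := by rw [hm, hP]; ring
      have e6 : m * Δ = Δ * m := mul_comm _ _
      have e7 : (8 * a + 1) * P = 8 * (a * P) + P := by ring
      omega
    have e2 : 80 * (q' * (m * Δ + h * m)) ≤ 16 * (8 * a + 1) * (P * P) := by
      calc 80 * (q' * (m * Δ + h * m)) = (10 * q') * (8 * (m * Δ + h * m)) := by ring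
        _ ≤ (16 * P) * ((8 * a + 1) * P) := Nat.mul_le_mul hq'10 e1
        _ = _ := by ring
    have e3 : 152 * (a - 1) * (P * P) ≤ 80 * (C * ((m - c) * (h * c))) := by
      calc 152 * (a - 1) * (P * P) = 8 * ((19 * P) * ((a - 1) * P)) := by ring
        _ ≤ 8 * ((10 * (C * c)) * ((a - 1) * P)) := by gcongr
        _ = 80 * (C * ((m - c) * (h * c))) := by rw [hmc, hP]; ring
    have e4 : 16 * (8 * a + 1) * (P * P) < 152 * (a - 1) * (P * P) := by
      apply Nat.mul_lt_mul_of_pos_right _ (by positivity)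
      omega
    omega
  refine ⟨m, c, q, q', ?_, by omega, by omega, by omega, hbig _ hcU, hbig _ hcV, ?_, ?_⟩
  · rw [hm]; exact Nat.mul_pos (by omega) (by omega)
  · have h1 : cu * m + cv * m = L0 * a * c := by rw [hm, hL0]; ring
    have h2 : K0 * c = L0 * a * c + 3 * P := by rw [hK0, hP]; ring
    omega
  · have h8 : 10 * (Δ * m + Δ * m + (q + q')) ≤ 38 * P := by omega
    have h9 : 38 * P ≤ 10 * (L0 * c) := by
      have : L0 * c = cu * c + cv * c := by rw [hL0]; ring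
      omega
    have h10 : a * (10 * (Δ * m + Δ * m + (q + q'))) ≤ a * (10 * (L0 * c)) :=
      Nat.mul_le_mul_left _ (h8.trans h9)
    have h12 : a * (10 * (Δ * m + Δ * m + (q + q'))) = 10 * (a * (Δ * m + Δ * m + (q + q'))) := by
      ring
    have h13 : a * (10 * (L0 * c)) = 10 * (a * (L0 * c)) := by ring
    have h14 : K0 * c = a * (L0 * c) + 3 * P := by rw [hK0, hP]; ring
    omega

/-- For every `a ≥ 10` and all large `n` there is a valid graph on `n` vertices with all independent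
sets of size at most `n / a`. -/
theorem exists_valid (a : ℕ) (ha : 10 ≤ a) : ∃ n₀ : ℕ, ∀ n ≥ n₀, ∃ G : SimpleGraph (Fin n),
    Valid G ∧ a * G.indepNum ≤ n := by
  classical
  obtain ⟨h, U, V, iU, iV, GU, GV, H, hG⟩ := gadget (8 * a) (by omega)
  refine ⟨((Fintype.card U + Fintype.card V) * a + 3 * h) * (20 * a + 40), fun n hn => ?_⟩
  obtain ⟨m, c, q, q', k1, k2, k3, k4, k5, k6, k7, k8⟩ := numeric_final a h _ _ n ha hG.hpos
    hG.cardU hG.cardV hG.cardU' hG.cardV' hn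
  obtain ⟨G, g1, g2, g3, g4, g5⟩ := blow_main (8 * a) h U V GU GV H hG (by omega) m c q q'
    k1 k2 k3 k4 k5 k6
  -- the number of vertices
  have hcard : Fintype.card (VV (U × Fin m) (V × Fin m) q q') = n := by
    simp only [VV, Fintype.card_sum, Fintype.card_prod, Fintype.card_fin]
    exact k7
  obtain ⟨e⟩ : Nonempty (VV (U × Fin m) (V × Fin m) q q' ≃ Fin n) :=
    ⟨Fintype.equivFinOfCardEq hcard⟩
  refine ⟨G.comap e.symm, valid_transport e G ⟨g1, g2, g3, g4⟩, ?_⟩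
  obtain ⟨I, hI⟩ := (G.comap e.symm).exists_isNIndepSet_indepNum
  rw [SimpleGraph.isNIndepSet_iff] at hI
  have h5 := g5 (I.map e.symm.toEmbedding) (by
    intro v hv w hw hvw
    rw [Finset.mem_map] at hv hw
    obtain ⟨v', hv', rfl⟩ := hv
    obtain ⟨w', hw', rfl⟩ := hw
    have hne : v' ≠ w' := by
      rintro rfl
      exact SimpleGraph.irrefl _ hvw
    exact hI.1 hv' hw' hne hvw)
  rw [Finset.card_map, hI.2] at h5
  exact (Nat.mul_le_mul_left _ h5).trans k8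

end Pool.Agent.Helper55.BE
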