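import Mathlib

set_option autoImplicit false

open Polynomial

namespace Pool.Agent.Helper55.Sharp

/-- The integer polynomial `X^(4(M+1)) + 2 X^(2(M+1)) - 2 X^(2M) + 4 X^4 - 4 X^2 + 1`. -/
noncomputable def P (M : ℕ) : ℤ[X] :=
  X ^ (4 * (M + 1)) + (2 * X ^ (2 * (M + 1)) - 2 * X ^ (2 * M) + 4 * X ^ 4 - 4 * X ^ 2 + 1)

lemma natDegree_lower (M : ℕ) (hM : 2 ≤ M) :
    (2 * X ^ (2 * (M + 1)) - 2 * X ^ (2 * M) + 4 * X ^ 4 - 4 * X ^ 2 + 1 : ℤ[X]).natDegree
      ≤ 2 * (M + 1) := by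
  compute_degree
  all_goals omega

lemma P_monic (M : ℕ) (hM : 2 ≤ M) : (P M).Monic := by
  unfold P
  apply monic_X_pow_add
  refine lt_of_le_of_lt degree_le_natDegree ?_
  have := natDegree_lower M hM
  exact_mod_cast lt_of_le_of_lt this (by omega)

lemma P_natDegree (M : ℕ) (hM : 2 ≤ M) : (P M).natDegree = 4 * (M + 1) := by
  unfold P
  rw [natDegree_add_eq_left_of_natDegree_lt]
  · simp
  · have := natDegree_lower M hM
    simp only [natDegree_X_pow]
    omega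

lemma P_eval_one (M : ℕ) : (P M).eval 1 = 2 := by
  simp [P]

lemma P_coeff_zero (M : ℕ) (hM : 2 ≤ M) : (P M).coeff 0 = 1 := by
  have h1 : 2 * (M + 1) ≠ 0 := by omega
  rw [coeff_zero_eq_eval_zero]
  simp [P, show M ≠ 0 by omega]

lemma P_map_two (M i : ℕ) (hMi : M + 1 = 2 ^ i) :
    (P M).map (algebraMap ℤ (ZMod 2)) = (X - 1 : (ZMod 2)[X]) ^ (4 * (M + 1)) := by
  have h4 : 4 * (M + 1) = 2 ^ (i + 2) := by rw [hMi]; ring
  have h2 : (2 : (ZMod 2)[X]) = 0 := by
    have : ((2 : ℕ) : (ZMod 2)[X]) = 0 := CharP.cast_eq_zero _ 2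
    exact_mod_cast this
  have h4' : (4 : (ZMod 2)[X]) = 0 := by
    have : (4 : (ZMod 2)[X]) = 2 * 2 := by norm_num
    rw [this, h2]; ring
  have hch : CharP (ZMod 2)[X] 2 := inferInstance
  unfold P
  simp only [Polynomial.map_add, Polynomial.map_sub, Polynomial.map_mul, Polynomial.map_pow,
    map_X, Polynomial.map_one, Polynomial.map_ofNat]
  rw [h2, h4', h4, sub_pow_char_pow]
  have h1 : (1 : (ZMod 2)[X]) = -1 := by
    have : (1 : (ZMod 2)[X]) + 1 = 0 := by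
      rw [← two_mul, h2]; ring
    exact eq_neg_of_add_eq_zero_left this
  simp only [one_pow]
  linear_combination h1

lemma P_irreducible (M i : ℕ) (hM : 2 ≤ M) (hMi : M + 1 = 2 ^ i) : Irreducible (P M) := by
  have hmon := P_monic M hM
  apply generalizedEisenstein (K := ZMod 2) (q := (X - 1 : ℤ[X])) (p := 4 * (M + 1))
  · have : (X - 1 : ℤ[X]).map (algebraMap ℤ (ZMod 2)) = X - C 1 := by simp
    rw [this]
    exact irreducible_X_sub_C _
  · have := monic_X_sub_C (1 : ℤ)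
    simpa using this
  · exact hmon.isPrimitive
  · rw [P_natDegree M hM]; omega
  · rw [hmon.leadingCoeff]; simp
  · rw [hmon.leadingCoeff, P_map_two M i hMi]
    simp
  · have h1 : (X - 1 : ℤ[X]) = X - C 1 := by simp
    rw [h1, modByMonic_X_sub_C_eq_C_eval, P_eval_one]
    have hker : RingHom.ker (algebraMap ℤ (ZMod 2)) = Ideal.span {(2 : ℤ)} := by
      have := ZMod.ker_intCastRingHom 2
      simpa using this
    rw [hker, map_C, Ne, C_eq_zero, Ideal.Quotient.eq_zero_iff_mem, Ideal.span_singleton_pow,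
      Ideal.mem_span_singleton]
    decide

lemma P_irreducible_rat (M i : ℕ) (hM : 2 ≤ M) (hMi : M + 1 = 2 ^ i) :
    Irreducible ((P M).map (algebraMap ℤ ℚ)) :=
  ((P_monic M hM).irreducible_iff_irreducible_map_fraction_map).1 (P_irreducible M i hM hMi)

lemma minpoly_eq (M i : ℕ) (hM : 2 ≤ M) (hMi : M + 1 = 2 ^ i) (α : ℂ)
    (hα : aeval α (P M) = 0) : minpoly ℚ α = (P M).map (algebraMap ℤ ℚ) := by
  symm
  apply minpoly.eq_of_irreducible_of_monic (P_irreducible_rat M i hM hMi)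
  · rw [aeval_map_algebraMap]; exact hα
  · exact (P_monic M hM).map _

/-- The complex version. -/
noncomputable def Q (M : ℕ) : ℂ[X] := (P M).map (algebraMap ℤ ℂ)

lemma Q_eval (M : ℕ) (z : ℂ) : (Q M).eval z =
    z ^ (4 * (M + 1)) + (2 * z ^ (2 * (M + 1)) - 2 * z ^ (2 * M) + 4 * z ^ 4 - 4 * z ^ 2 + 1) := by
  simp [Q, P]

end Pool.Agent.Helper55.Sharp
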