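import Mathlib

set_option autoImplicit false

namespace Pool.Agent.Helper55.Sharp

open Finset

/-- `F_M(w)`, so that `P_M(z) = F_M(z^2)`. -/
noncomputable def F (M : ℕ) (w : ℂ) : ℂ :=
  w ^ (2 * (M + 1)) + 2 * w ^ (M + 1) - 2 * w ^ M + (1 - 2 * w) ^ 2

/-- The largeness conditions on `M`. -/
structure Good (M : ℕ) : Prop where
  two_le : 2 ≤ M
  c1 : 20 * (M : ℝ) ^ 2 * (9 / 10 : ℝ) ^ M ≤ 1
  c2 : 3000 * ((M : ℝ) + 1) ^ 2 < 2 ^ M
  c3 : (9 / 10 : ℝ) ^ M ≤ 1 / 1000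

lemma eventually_good : ∃ M₀ : ℕ, ∀ M ≥ M₀, Good M := by
  have h1 : ∀ᶠ M : ℕ in Filter.atTop, 20 * (M : ℝ) ^ 2 * (9 / 10 : ℝ) ^ M ≤ 1 := by
    have := (tendsto_pow_const_mul_const_pow_of_abs_lt_one 2
      (show |(9 / 10 : ℝ)| < 1 by rw [abs_of_pos] <;> norm_num)).const_mul 20
    rw [mul_zero] at this
    filter_upwards [this.eventually (gt_mem_nhds (show (0 : ℝ) < 1 by norm_num))] with M hM
    linarith
  have h2 : ∀ᶠ M : ℕ in Filter.atTop, 3000 * ((M : ℝ) + 1) ^ 2 < 2 ^ M := by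
    have := (tendsto_pow_const_mul_const_pow_of_abs_lt_one 2
      (show |(1 / 2 : ℝ)| < 1 by rw [abs_of_pos] <;> norm_num)).const_mul 12000
    rw [mul_zero] at this
    filter_upwards [this.eventually (gt_mem_nhds (show (0 : ℝ) < 1 by norm_num)),
      Filter.eventually_ge_atTop 1] with M hM hM1
    have h3 : (1 / 2 : ℝ) ^ M = 1 / 2 ^ M := by rw [div_pow, one_pow]
    rw [h3] at hM
    have h4 : (0 : ℝ) < 2 ^ M := by positivity
    have h5 : 12000 * (M : ℝ) ^ 2 < 2 ^ M := by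
      have h6 : 12000 * ((M : ℝ) ^ 2 * (1 / 2 ^ M)) = 12000 * (M : ℝ) ^ 2 / 2 ^ M := by ring
      rw [h6, div_lt_one h4] at hM
      exact hM
    have h7 : (1 : ℝ) ≤ M := by exact_mod_cast hM1
    nlinarith
  have h3 : ∀ᶠ M : ℕ in Filter.atTop, (9 / 10 : ℝ) ^ M ≤ 1 / 1000 := by
    have := tendsto_pow_atTop_nhds_zero_of_lt_one (show (0 : ℝ) ≤ 9 / 10 by norm_num)
      (by norm_num)
    filter_upwards [this.eventually (gt_mem_nhds (show (0 : ℝ) < 1 / 1000 by norm_num))] with M hM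
    linarith
  obtain ⟨M₀, hM₀⟩ := Filter.eventually_atTop.1 (h1.and (h2.and h3))
  refine ⟨max M₀ 2, fun M hM => ?_⟩
  obtain ⟨a, b, c⟩ := hM₀ M (le_trans (le_max_left _ _) hM)
  exact ⟨le_trans (le_max_right _ _) hM, a, b, c⟩

variable {M : ℕ}

lemma x_sq {w : ℂ} (h : F M w = 0) :
    (1 - 2 * w) ^ 2 = w ^ M * (2 * (1 - w) - w ^ (M + 2)) := by
  unfold F at h
  have h1 : w ^ (2 * (M + 1)) = w ^ M * w ^ (M + 2) := by rw [← pow_add]; congr 1; ring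
  have h2 : w ^ (M + 1) = w ^ M * w := pow_succ _ _
  rw [h1, h2] at h
  linear_combination h

lemma near_bound {w : ℂ} (hw : ‖w‖ ≤ 9 / 10) (h : F M w = 0) :
    ‖1 - 2 * w‖ ^ 2 ≤ 5 * (9 / 10 : ℝ) ^ M := by
  have h1 := congrArg norm (x_sq h)
  rw [norm_pow, norm_mul, norm_pow] at h1
  rw [h1]
  have h2 : ‖w‖ ^ M ≤ (9 / 10 : ℝ) ^ M := pow_le_pow_left₀ (norm_nonneg _) hw _
  have h3 : ‖2 * (1 - w) - w ^ (M + 2)‖ ≤ 5 := by
    calc ‖2 * (1 - w) - w ^ (M + 2)‖ ≤ ‖2 * (1 - w)‖ + ‖w ^ (M + 2)‖ := norm_sub_le _ _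
      _ = 2 * ‖1 - w‖ + ‖w‖ ^ (M + 2) := by rw [norm_mul, norm_pow]; simp
      _ ≤ 2 * (1 + 9 / 10) + 1 := by
        gcongr
        · calc ‖1 - w‖ ≤ ‖(1 : ℂ)‖ + ‖w‖ := norm_sub_le _ _
            _ ≤ 1 + 9 / 10 := by simp; linarith
        · exact pow_le_one₀ (norm_nonneg _) (by linarith)
      _ ≤ 5 := by norm_num
  calc ‖w‖ ^ M * ‖2 * (1 - w) - w ^ (M + 2)‖ ≤ (9 / 10 : ℝ) ^ M * 5 := by gcongr
    _ = 5 * (9 / 10 : ℝ) ^ M := by ring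

lemma M_mul_le (hM : Good M) {w : ℂ} (hw : ‖w‖ ≤ 9 / 10) (h : F M w = 0) :
    (M : ℝ) * ‖1 - 2 * w‖ ≤ 1 / 2 := by
  have h1 := near_bound hw h
  have h2 := hM.c1
  have h3 : ((M : ℝ) * ‖1 - 2 * w‖) ^ 2 ≤ (1 / 2) ^ 2 := by
    rw [mul_pow]
    calc (M : ℝ) ^ 2 * ‖1 - 2 * w‖ ^ 2 ≤ (M : ℝ) ^ 2 * (5 * (9 / 10 : ℝ) ^ M) := by gcongr
      _ = (20 * (M : ℝ) ^ 2 * (9 / 10 : ℝ) ^ M) / 4 := by ring
      _ ≤ (1 / 2) ^ 2 := by linarith
  exact le_of_sq_le_sq h3 (by norm_num)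

lemma x_le (hM : Good M) {w : ℂ} (hw : ‖w‖ ≤ 9 / 10) (h : F M w = 0) :
    ‖1 - 2 * w‖ ≤ 1 / 10 := by
  have h1 := near_bound hw h
  have h2 := hM.c3
  have h3 : ‖1 - 2 * w‖ ^ 2 ≤ (1 / 10) ^ 2 := by linarith
  exact le_of_sq_le_sq h3 (by norm_num)


lemma two_norm_le {w : ℂ} : 2 * ‖w‖ ≤ 1 + ‖1 - 2 * w‖ := by
  have h : 2 * w = 1 - (1 - 2 * w) := by ring
  calc 2 * ‖w‖ = ‖2 * w‖ := by simp
    _ = ‖1 - (1 - 2 * w)‖ := by rw [← h]
    _ ≤ ‖(1 : ℂ)‖ + ‖1 - 2 * w‖ := norm_sub_le _ _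
    _ = 1 + ‖1 - 2 * w‖ := by simp

lemma le_two_norm {w : ℂ} : 1 - ‖1 - 2 * w‖ ≤ 2 * ‖w‖ := by
  have h : ‖(1 : ℂ)‖ ≤ ‖1 - 2 * w‖ + ‖2 * w‖ := by
    calc ‖(1 : ℂ)‖ = ‖(1 - 2 * w) + 2 * w‖ := by congr 1; ring
      _ ≤ _ := norm_add_le _ _
  simp only [norm_one, norm_mul, Complex.norm_ofNat] at h
  linarith

lemma pow_le_two_of {t : ℝ} (ht : 0 ≤ t) (h : (M : ℝ) * t ≤ 1 / 2) : (1 + t) ^ M ≤ 2 := by
  have h1 : (1 + t) ^ M ≤ Real.exp (M * t) := by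
    rw [mul_comm, Real.exp_mul]
    rw [Real.rpow_natCast]
    gcongr
    have := Real.add_one_le_exp t
    linarith
  have h2 : Real.exp (M * t) ≤ Real.exp (1 / 2) := Real.exp_le_exp.2 h
  have h3 : Real.exp (1 / 2) ≤ 2 := by
    have h4 : Real.exp (1 / 2) ^ 2 ≤ 2 ^ 2 := by
      rw [← Real.exp_nat_mul]
      norm_num
      have := Real.exp_one_lt_d9
      linarith
    exact le_of_sq_le_sq h4 (by norm_num)
  linarith

lemma pow_norm_le (hM : Good M) {w : ℂ} (hw : ‖w‖ ≤ 9 / 10) (h : F M w = 0) :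
    (2 * ‖w‖) ^ M ≤ 2 := by
  calc (2 * ‖w‖) ^ M ≤ (1 + ‖1 - 2 * w‖) ^ M := by
        gcongr
        exact two_norm_le
    _ ≤ 2 := pow_le_two_of (norm_nonneg _) (M_mul_le hM hw h)

lemma le_pow_norm (hM : Good M) {w : ℂ} (hw : ‖w‖ ≤ 9 / 10) (h : F M w = 0) :
    1 / 2 ≤ (2 * ‖w‖) ^ M := by
  have h1 := M_mul_le hM hw h
  have h2 := x_le hM hw h
  have h3 : 1 + (M : ℝ) * (-‖1 - 2 * w‖) ≤ (1 + -‖1 - 2 * w‖) ^ M :=
    one_add_mul_le_pow (by linarith) M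
  have h4 : (1 + -‖1 - 2 * w‖) ^ M ≤ (2 * ‖w‖) ^ M := by
    have := @le_two_norm w
    gcongr
    · linarith
    · linarith
  linarith

lemma lower_x (hM : Good M) {w : ℂ} (hw : ‖w‖ ≤ 9 / 10) (h : F M w = 0) :
    1 / 4 ≤ 2 ^ M * ‖1 - 2 * w‖ ^ 2 := by
  have h1 := congrArg norm (x_sq h)
  rw [norm_pow, norm_mul, norm_pow] at h1
  rw [h1]
  have h2 := x_le hM hw h
  have h3 : 9 / 10 ≤ ‖2 * (1 - w)‖ := by
    have : ‖(1 : ℂ)‖ ≤ ‖2 * (1 - w)‖ + ‖1 - 2 * w‖ := by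
      calc ‖(1 : ℂ)‖ = ‖2 * (1 - w) - (1 - 2 * w)‖ := by congr 1; ring
        _ ≤ _ := norm_sub_le _ _
    simp only [norm_one] at this
    linarith
  have h4 : ‖w ^ (M + 2)‖ ≤ 1 / 1000 := by
    rw [norm_pow]
    calc ‖w‖ ^ (M + 2) ≤ ‖w‖ ^ M := pow_le_pow_of_le_one (norm_nonneg _) (by linarith) (by omega)
      _ ≤ (9 / 10 : ℝ) ^ M := pow_le_pow_left₀ (norm_nonneg _) hw _
      _ ≤ 1 / 1000 := hM.c3
  have h5 : 1 / 2 ≤ ‖2 * (1 - w) - w ^ (M + 2)‖ := by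
    have := norm_sub_norm_le (2 * (1 - w)) (w ^ (M + 2))
    linarith
  have h6 := le_pow_norm hM hw h
  rw [mul_pow] at h6
  calc (1 / 4 : ℝ) = 1 / 2 * (1 / 2) := by norm_num
    _ ≤ (2 ^ M * ‖w‖ ^ M) * ‖2 * (1 - w) - w ^ (M + 2)‖ := by gcongr
    _ = _ := by ring

lemma norm_geom (n : ℕ) {w v : ℂ} {r : ℝ} (hr : 0 ≤ r) (hw : ‖w‖ ≤ r) (hv : ‖v‖ ≤ r) :
    ‖∑ i ∈ range n, w ^ i * v ^ (n - 1 - i)‖ ≤ n * r ^ (n - 1) := by
  calc ‖∑ i ∈ range n, w ^ i * v ^ (n - 1 - i)‖ ≤ ∑ i ∈ range n, ‖w ^ i * v ^ (n - 1 - i)‖ :=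
        norm_sum_le _ _
    _ ≤ ∑ i ∈ range n, r ^ (n - 1) := by
      apply Finset.sum_le_sum
      intro i hi
      rw [Finset.mem_range] at hi
      rw [norm_mul, norm_pow, norm_pow]
      calc ‖w‖ ^ i * ‖v‖ ^ (n - 1 - i) ≤ r ^ i * r ^ (n - 1 - i) := by gcongr
        _ = r ^ (n - 1) := by rw [← pow_add]; congr 1; omega
    _ = n * r ^ (n - 1) := by simp

lemma pair (hM : Good M) {w v : ℂ} (hw : ‖w‖ ≤ 9 / 10) (h : F M w = 0)
    (hv : ‖v‖ ≤ 9 / 10) (h' : F M v = 0) (hne : w ≠ v) :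
    2 ^ M * ‖(1 - 2 * w) + (1 - 2 * v)‖ ≤ 18 * (M + 1) := by
  set D : ℕ → ℂ := fun n => ∑ i ∈ range n, w ^ i * v ^ (n - 1 - i) with hD
  have hDn : ∀ n, (w - v) * D n = w ^ n - v ^ n := fun n => by
    rw [hD]
    exact (Commute.all w v).mul_geom_sum₂ n
  have hsub : w - v ≠ 0 := sub_ne_zero.2 hne
  have key : 2 * ((1 - 2 * w) + (1 - 2 * v)) = D (2 * (M + 1)) + 2 * D (M + 1) - 2 * D M := by
    apply mul_left_cancel₀ hsub
    have e1 := hDn (2 * (M + 1))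
    have e2 := hDn (M + 1)
    have e3 := hDn M
    unfold F at h h'
    linear_combination h' - h - e1 - 2 * e2 + 2 * e3
  -- the common bound on `‖w‖`, `‖v‖`
  set r : ℝ := max ‖w‖ ‖v‖ with hr
  have hr0 : 0 ≤ r := le_trans (norm_nonneg w) (le_max_left _ _)
  have hr1 : r ≤ 1 := max_le (by linarith) (by linarith)
  have hrM : (2 * r) ^ M ≤ 2 := by
    rcases max_choice ‖w‖ ‖v‖ with h1 | h1
    · rw [hr, h1]; exact pow_norm_le hM hw h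
    · rw [hr, h1]; exact pow_norm_le hM hv h'
  have hrhalf : 9 / 10 ≤ 2 * r := by
    have h1 := @le_two_norm w
    have h2 := x_le hM hw h
    have h3 : ‖w‖ ≤ r := le_max_left _ _
    linarith
  have hrM1 : 2 ^ M * r ^ (M - 1) ≤ 6 := by
    obtain ⟨m, rfl⟩ : ∃ m, M = m + 1 := ⟨M - 1, by have := hM.two_le; omega⟩
    simp only [Nat.add_sub_cancel]
    rw [mul_pow, pow_succ r] at hrM
    have h5 : 0 ≤ (2 : ℝ) ^ (m + 1) * r ^ m := by positivity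
    nlinarith
  have b1 := norm_geom (2 * (M + 1)) hr0 (le_max_left ‖w‖ ‖v‖) (le_max_right ‖w‖ ‖v‖)
  have b2 := norm_geom (M + 1) hr0 (le_max_left ‖w‖ ‖v‖) (le_max_right ‖w‖ ‖v‖)
  have b3 := norm_geom M hr0 (le_max_left ‖w‖ ‖v‖) (le_max_right ‖w‖ ‖v‖)
  have c1 : r ^ (2 * (M + 1) - 1) ≤ r ^ (M - 1) :=
    pow_le_pow_of_le_one hr0 hr1 (by omega)
  have c2 : r ^ (M + 1 - 1) ≤ r ^ (M - 1) :=
    pow_le_pow_of_le_one hr0 hr1 (by omega)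
  have key2 : ‖D (2 * (M + 1)) + 2 * D (M + 1) - 2 * D M‖ ≤ (6 * M + 4) * r ^ (M - 1) := by
    calc ‖D (2 * (M + 1)) + 2 * D (M + 1) - 2 * D M‖
        ≤ ‖D (2 * (M + 1)) + 2 * D (M + 1)‖ + ‖2 * D M‖ := norm_sub_le _ _
      _ ≤ ‖D (2 * (M + 1))‖ + ‖2 * D (M + 1)‖ + ‖2 * D M‖ := by gcongr; exact norm_add_le _ _
      _ = ‖D (2 * (M + 1))‖ + 2 * ‖D (M + 1)‖ + 2 * ‖D M‖ := by simp
      _ ≤ ((2 * (M + 1) : ℕ) : ℝ) * r ^ (M - 1) + 2 * (((M + 1 : ℕ) : ℝ) * r ^ (M - 1))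
          + 2 * ((M : ℝ) * r ^ (M - 1)) := by
        gcongr
        · exact b1.trans (by gcongr)
        · exact b2.trans (by gcongr)
      _ = _ := by push_cast; ring
  rw [← key] at key2
  rw [norm_mul, Complex.norm_ofNat] at key2
  have h6 : (0 : ℝ) < 2 ^ M := by positivity
  have h7 : 2 ^ M * (2 * ‖(1 - 2 * w) + (1 - 2 * v)‖) ≤ 2 ^ M * ((6 * M + 4) * r ^ (M - 1)) := by
    gcongr
  have h8 : 2 ^ M * ((6 * M + 4) * r ^ (M - 1)) = (6 * M + 4) * (2 ^ M * r ^ (M - 1)) := by ring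
  have h9 : (6 * (M : ℝ) + 4) * (2 ^ M * r ^ (M - 1)) ≤ (6 * M + 4) * 6 := by gcongr
  have : (0 : ℝ) ≤ M := by positivity
  nlinarith


lemma no_three (hM : Good M) {u v w : ℂ} (hu : ‖u‖ ≤ 9 / 10) (hu' : F M u = 0)
    (hv : ‖v‖ ≤ 9 / 10) (hv' : F M v = 0) (hw : ‖w‖ ≤ 9 / 10) (hw' : F M w = 0)
    (h1 : u ≠ v) (h2 : u ≠ w) (h3 : v ≠ w) : False := by
  have a1 := pair hM hu hu' hv hv' h1
  have a2 := pair hM hu hu' hw hw' h2
  have a3 := pair hM hv hv' hw hw' h3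
  have e : 2 * (1 - 2 * u) = ((1 - 2 * u) + (1 - 2 * v)) + ((1 - 2 * u) + (1 - 2 * w))
      - ((1 - 2 * v) + (1 - 2 * w)) := by ring
  have h4 : 2 * ‖1 - 2 * u‖ ≤ ‖(1 - 2 * u) + (1 - 2 * v)‖ + ‖(1 - 2 * u) + (1 - 2 * w)‖
      + ‖(1 - 2 * v) + (1 - 2 * w)‖ := by
    have : ‖2 * (1 - 2 * u)‖ = 2 * ‖1 - 2 * u‖ := by simp
    rw [← this, e]
    exact (norm_sub_le _ _).trans (by gcongr; exact norm_add_le _ _)
  have h5 : (0 : ℝ) < 2 ^ M := by positivity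
  have h6 : 2 ^ M * ‖1 - 2 * u‖ ≤ 27 * (M + 1) := by nlinarith
  have h7 := lower_x hM hu hu'
  have h8 := hM.c2
  have h9 : (2 ^ M * ‖1 - 2 * u‖) ^ 2 ≤ (27 * ((M : ℝ) + 1)) ^ 2 := by
    gcongr
  have h10 : (2 : ℝ) ^ M * (1 / 4) ≤ (2 ^ M * ‖1 - 2 * u‖) ^ 2 := by
    calc (2 : ℝ) ^ M * (1 / 4) ≤ 2 ^ M * (2 ^ M * ‖1 - 2 * u‖ ^ 2) := by gcongr
      _ = _ := by ring
  nlinarith

/-- The real version of `F`. -/
noncomputable def FR (M : ℕ) (t : ℝ) : ℝ :=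
  t ^ (2 * (M + 1)) + 2 * t ^ (M + 1) - 2 * t ^ M + (1 - 2 * t) ^ 2

lemma F_ofReal (t : ℝ) : F M (t : ℂ) = (FR M t : ℂ) := by
  simp [F, FR]

lemma FR_cont : Continuous (FR M) := by
  unfold FR
  fun_prop

lemma FR_half (hM : Good M) : FR M (1 / 2) < 0 := by
  unfold FR
  have h1 : (1 / 2 : ℝ) ^ (2 * (M + 1)) = (1 / 2) ^ M * (1 / 2) ^ (M + 2) := by
    rw [← pow_add]; congr 1; ring
  have h2 : (1 / 2 : ℝ) ^ (M + 2) ≤ (1 / 2) ^ 2 :=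
    pow_le_pow_of_le_one (by norm_num) (by norm_num) (by omega)
  have h3 : (0 : ℝ) < (1 / 2) ^ M := by positivity
  rw [h1, pow_succ (1 / 2 : ℝ) M]
  nlinarith

lemma FR_zero (hM : Good M) : 0 < FR M 0 := by
  unfold FR
  have := hM.two_le
  simp [show M ≠ 0 by omega]

lemma FR_pos (hM : Good M) {t : ℝ} (ht : 9 / 10 ≤ t) : 0 < FR M t := by
  unfold FR
  have h0 : 0 < t := by linarith
  have h1 : t ^ (M + 1) = t ^ M * t := pow_succ _ _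
  rw [h1]
  have h2 : 0 < t ^ M := by positivity
  have h3 : 0 < t ^ (2 * (M + 1)) := by positivity
  rcases le_or_gt t 1 with h | h
  · have h4 : t ^ M ≤ 1 := pow_le_one₀ h0.le h
    have h5 : t ^ M * (1 - t) ≤ 1 * (1 - t) :=
      mul_le_mul_of_nonneg_right h4 (by linarith)
    nlinarith
  · have h5 : 0 < t ^ M * (t - 1) := by
      exact mul_pos h2 (by linarith)
    nlinarith [sq_nonneg (1 - 2 * t)]

lemma exists_roots (hM : Good M) : ∃ a b : ℝ, 0 < a ∧ a < b ∧ b < 9 / 10 ∧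
    FR M a = 0 ∧ FR M b = 0 := by
  have h0 := FR_zero hM
  have h1 := FR_half hM
  have h2 := FR_pos hM (le_refl (9 / 10 : ℝ))
  obtain ⟨a, ha, ha'⟩ := intermediate_value_Ioo' (show (0 : ℝ) ≤ 1 / 2 by norm_num)
    (FR_cont (M := M)).continuousOn ⟨h1, h0⟩
  obtain ⟨b, hb, hb'⟩ := intermediate_value_Ioo (show (1 / 2 : ℝ) ≤ 9 / 10 by norm_num)
    (FR_cont (M := M)).continuousOn ⟨h1, h2⟩
  exact ⟨a, b, ha.1, ha.2.trans hb.1, hb.2, ha', hb'⟩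

/-- Roots of modulus more than `9/10`. -/
lemma far_log (hM : Good M) {w : ℂ} (hw : 9 / 10 < ‖w‖) (h : F M w = 0) :
    |Real.log ‖w‖| ≤ 3 / (M + 1) := by
  have hpos : 0 < ‖w‖ := by linarith
  have hM1 : (0 : ℝ) < (M : ℝ) + 1 := by positivity
  have hMr : (2 : ℝ) ≤ M := by exact_mod_cast hM.two_le
  rw [abs_le]
  constructor
  · -- lower bound
    rcases le_or_gt 1 ‖w‖ with h1 | h1
    · have := Real.log_nonneg h1
      have : 0 ≤ 3 / ((M : ℝ) + 1) := by positivity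
      linarith
    · -- `‖w‖ < 1`
      have e1 : w ^ (2 * (M + 1)) = 2 * w ^ M * (1 - w) - (1 - 2 * w) ^ 2 := by
        unfold F at h
        have h2 : w ^ (M + 1) = w ^ M * w := pow_succ _ _
        rw [h2] at h
        linear_combination h
      have e2 : ‖1 - 2 * w‖ ^ 2 - 2 * ‖1 - w‖ ≤ ‖w‖ ^ (2 * (M + 1)) := by
        rw [← norm_pow w, e1]
        have h3 := norm_sub_norm_le ((1 - 2 * w) ^ 2) (2 * w ^ M * (1 - w))
        rw [norm_sub_rev, norm_mul, norm_mul, norm_pow, norm_pow, Complex.norm_ofNat] at h3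
        have h4 : ‖w‖ ^ M ≤ 1 := pow_le_one₀ hpos.le h1.le
        have h5 : 2 * ‖w‖ ^ M * ‖1 - w‖ ≤ 2 * 1 * ‖1 - w‖ := by gcongr
        linarith
      have e3 : ‖1 - 2 * w‖ ^ 2 = 2 * ‖1 - w‖ ^ 2 + 2 * ‖w‖ ^ 2 - 1 := by
        rw [← Complex.normSq_eq_norm_sq, ← Complex.normSq_eq_norm_sq, ← Complex.normSq_eq_norm_sq,
          Complex.normSq_apply, Complex.normSq_apply, Complex.normSq_apply]
        simp
        ring
      have e4 : 3 / 25 ≤ ‖w‖ ^ (2 * (M + 1)) := by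
        nlinarith [sq_nonneg (‖1 - w‖ - 1 / 2)]
      have e5 : Real.log (3 / 25) ≤ (2 * (M + 1)) * Real.log ‖w‖ := by
        have := Real.log_le_log (by norm_num) e4
        rw [Real.log_pow] at this
        push_cast at this
        exact this
      have e6 : -3 ≤ Real.log (3 / 25) := by
        rw [Real.le_log_iff_exp_le (by norm_num), Real.exp_neg]
        have h8 : (25 / 3 : ℝ) ≤ Real.exp 3 := by
          have : Real.exp 3 = Real.exp 1 ^ 3 := by rw [← Real.exp_nat_mul]; norm_num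
          rw [this]
          have h9 := Real.exp_one_gt_d9
          have h10 : (2.7182818283 : ℝ) ^ 3 ≤ Real.exp 1 ^ 3 := by gcongr
          refine le_trans ?_ h10
          norm_num
        rw [inv_le_comm₀ (Real.exp_pos _) (by norm_num)]
        norm_num at h8 ⊢
        exact h8
      have e7 : -3 ≤ 2 * ((M : ℝ) + 1) * Real.log ‖w‖ := by linarith
      rw [← neg_div, div_le_iff₀ hM1]
      nlinarith
  · rcases le_or_gt ‖w‖ 1 with h1 | h1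
    · have := Real.log_nonpos hpos.le h1
      have : 0 ≤ 3 / ((M : ℝ) + 1) := by positivity
      linarith
    · have e1 : w ^ (2 * (M + 1)) = 2 * w ^ M * (1 - w) - (1 - 2 * w) ^ 2 := by
        unfold F at h
        have h2 : w ^ (M + 1) = w ^ M * w := pow_succ _ _
        rw [h2] at h
        linear_combination h
      have e2 : ‖w‖ ^ (2 * (M + 1)) ≤ 13 * ‖w‖ ^ (M + 1) := by
        rw [← norm_pow, e1]
        have a1 : ‖1 - w‖ ≤ 2 * ‖w‖ := by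
          calc ‖1 - w‖ ≤ ‖(1 : ℂ)‖ + ‖w‖ := norm_sub_le _ _
            _ ≤ 2 * ‖w‖ := by simp; linarith
        have a2 : ‖1 - 2 * w‖ ≤ 3 * ‖w‖ := by
          calc ‖1 - 2 * w‖ ≤ ‖(1 : ℂ)‖ + ‖2 * w‖ := norm_sub_le _ _
            _ ≤ 3 * ‖w‖ := by simp; linarith
        calc ‖2 * w ^ M * (1 - w) - (1 - 2 * w) ^ 2‖
            ≤ ‖2 * w ^ M * (1 - w)‖ + ‖(1 - 2 * w) ^ 2‖ := norm_sub_le _ _
          _ = 2 * ‖w‖ ^ M * ‖1 - w‖ + ‖1 - 2 * w‖ ^ 2 := by simp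
          _ ≤ 2 * ‖w‖ ^ M * (2 * ‖w‖) + (3 * ‖w‖) ^ 2 := by gcongr
          _ = 4 * ‖w‖ ^ (M + 1) + 9 * ‖w‖ ^ 2 := by ring
          _ ≤ 4 * ‖w‖ ^ (M + 1) + 9 * ‖w‖ ^ (M + 1) := by
            gcongr
            · exact h1.le
            · have := hM.two_le; omega
          _ = 13 * ‖w‖ ^ (M + 1) := by ring
      have e3 : ‖w‖ ^ (M + 1) ≤ 13 := by
        have h5 : ‖w‖ ^ (2 * (M + 1)) = ‖w‖ ^ (M + 1) * ‖w‖ ^ (M + 1) := by
          rw [← pow_add]; congr 1; ring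
        rw [h5] at e2
        exact le_of_mul_le_mul_right e2 (by positivity)
      have e4 : ((M : ℝ) + 1) * Real.log ‖w‖ ≤ Real.log 13 := by
        have := Real.log_le_log (by positivity) e3
        rw [Real.log_pow] at this
        push_cast at this
        exact this
      have e5 : Real.log 13 ≤ 3 := by
        rw [Real.log_le_iff_le_exp (by norm_num)]
        have : Real.exp 3 = Real.exp 1 ^ 3 := by rw [← Real.exp_nat_mul]; norm_num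
        rw [this]
        have h9 := Real.exp_one_gt_d9
        have h10 : (2.7182818283 : ℝ) ^ 3 ≤ Real.exp 1 ^ 3 := by gcongr
        refine le_trans ?_ h10
        norm_num
      rw [le_div_iff₀ hM1]
      linarith

end Pool.Agent.Helper55.Sharp
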